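import Pool.Agent.H60.FT.AStep4

/-!
The A-step (project FT, MP_6e521b_an): main statement over real inner product spaces.
-/

open Set Metric
open scoped InnerProductSpace

set_option linter.unusedSectionVars false

namespace Pool.Agent.H60.FT

variable {E G : Type*} [NormedAddCommGroup E] [InnerProductSpace ℝ E] [ProperSpace E]
  [NormedAddCommGroup G] [InnerProductSpace ℝ G] [ProperSpace G]

variable {κ : ℝ → ℝ} {δ σ ρ : ℝ} {s s' : E → G} {Ds : E → E →L[ℝ] G}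
  {yb ηb : E} {xb Xb : G}

theorem AData.main (h : AData κ δ σ ρ s s' Ds yb ηb xb Xb) {g : E → G → ℝ}
    (hg : Continuous (fun z : E × G => g z.1 z.2)) (hg0 : ∀ y x, 0 ≤ g y x) (hgb : 0 < g yb xb)
    (ht : ∀ y x, ‖y - yb‖ ^ 2 + ‖x - xb‖ ^ 2 ≤ ρ ^ 2 → g y x ≤ g yb xb *
      Real.exp (lin yb ηb xb Xb y x + (1 + δ) * κ ρ / 2 * (‖y - yb‖ ^ 2 + ‖x - xb‖ ^ 2))) :
    ∃ (y' η' : E) (x' X' : G), ‖y' - yb‖ ^ 2 + ‖x' - xb‖ ^ 2 ≤ (δ * ρ) ^ 2 ∧
      ‖η' - ηb‖ ^ 2 + ‖X' - Xb‖ ^ 2 ≤ (3 * (κ ρ * ρ)) ^ 2 ∧ ‖x' - s y'‖ ≤ δ * ρ ∧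
      g yb xb * Real.exp (lin yb ηb xb Xb y' x' - δ ^ 3 * (κ ρ * ρ ^ 2)) ≤ g y' x' ∧
      ‖(X' - s' η') - κ ‖x' - s y'‖ • (x' - s y')‖
        ≤ 50 * δ * (κ ‖x' - s y'‖ * ‖x' - s y'‖) ∧
      ∀ y x, ‖y - y'‖ ^ 2 + ‖x - x'‖ ^ 2 ≤ (ρ / 8) ^ 2 → g y x ≤ g y' x' *
        Real.exp (⟪y - y', η'⟫_ℝ + ⟪x - x', X'⟫_ℝ
          + (1 + 50 * δ) * κ ‖x' - s y'‖ / 2 * (‖y - y'‖ ^ 2 + ‖x - x'‖ ^ 2)) := by
  have hK := h.K0
  have hρ := h.ρ0
  have hδ := h.δ0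
  have hδ1 := h.δ1
  have hσ0 := h.σ0
  have hσδ := h.σδ
  obtain ⟨p2, p3, p4, p6, p1⟩ := num_pow hδ hδ1
  have hδ20 : 0 ≤ δ ^ 2 := by positivity
  have hKρ : 0 < κ ρ * ρ := by positivity
  have hKρ2 : 0 < κ ρ * ρ ^ 2 := by positivity
  obtain ⟨p, y', η, x', hp, hz, hη, hmax⟩ := h.exists_max hg
  have hyb0 : ‖yb - yb‖ ≤ ρ / 2 := by rw [sub_self, norm_zero]; positivity
  obtain ⟨η0, hη0⟩ := h.exists_eta hyb0
  -- the sizes
  have hA4 : ‖y' - yb‖ ≤ ρ / 4 := by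
    apply abs_le_of_sq_le_sq' _ (by positivity) |>.2
    linarith [sq_nonneg ‖x' - xb‖]
  have hp' : ‖p - yb‖ ≤ ρ := by linarith
  have hy' : ‖y' - yb‖ ≤ ρ := by linarith
  have hlow := h.low hp hη hz
  set W' := WW κ δ ρ s s' Ds yb ηb xb Xb η p y' x' with hW'
  have hWb := h.WW_b hη0
  set Wb := WW κ δ ρ s s' Ds yb ηb xb Xb η0 yb yb xb with hWb'
  have hm1 := hmax yb yb η0 xb hyb0 (by
    simp only [sub_self, norm_zero]
    have h1 : 0 ≤ ρ ^ 2 := sq_nonneg ρ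
    have h2 : (ρ / 4) ^ 2 = ρ ^ 2 / 16 := by ring
    rw [h2]; linarith) hη0
  rw [← hWb'] at hm1
  -- the lower bound of the value
  have hval : g yb xb * Real.exp (W' - Wb) ≤ g y' x' := by
    have h1 := mul_le_mul_of_nonneg_right hm1 (Real.exp_pos W').le
    rw [mul_assoc, mul_assoc, ← Real.exp_add, ← Real.exp_add, neg_add_cancel, Real.exp_zero,
      mul_one] at h1
    rwa [show W' - Wb = -Wb + W' by ring]
  have hg' : 0 < g y' x' := lt_of_lt_of_le (mul_pos hgb (Real.exp_pos _)) hval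
  have htc := ht y' x' (hz.trans (by
    have h1 : 0 ≤ ρ ^ 2 := sq_nonneg ρ
    have h2 : (ρ / 4) ^ 2 = ρ ^ 2 / 16 := by ring
    rw [h2]; linarith))
  have hWle : W' ≤ lin yb ηb xb Xb y' x' + (1 + δ) * κ ρ / 2 * (‖y' - yb‖ ^ 2 + ‖x' - xb‖ ^ 2)
      + Wb := by
    have h1 := hval.trans htc
    have h2 := Real.exp_le_exp.1 (le_of_mul_le_mul_left h1 hgb)
    linarith
  have hclose := num_close (A := ‖y' - yb‖) (D := ‖y' - p‖) (T := ‖x' - s p‖) hρ hδ hδ1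
    (norm_nonneg _) (norm_nonneg _) (norm_nonneg _) (by
      have h1 : κ ρ * (δ / 4 * (‖y' - yb‖ ^ 2 + ‖y' - p‖ ^ 2 + ‖x' - s p‖ ^ 2)
          - 5 * δ ^ 7 * ρ ^ 2) ≤ κ ρ * (2 * δ ^ 4 * ρ ^ 2) := by linarith
      exact le_of_mul_le_mul_left h1 hK)
  obtain ⟨hA, hD, hT⟩ := hclose
  have hP : ‖p - yb‖ ≤ 6 / 10 * δ * ρ := by
    have e : p - yb = (y' - yb) - (y' - p) := by abel
    rw [e]
    linarith [norm_sub_le (y' - yb) (y' - p)]
  have hδρ : 0 < δ * ρ := by positivity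
  have hyb : ‖yb - yb‖ ≤ ρ := by rw [sub_self, norm_zero]; exact hρ.le
  have hσ2 : σ ≤ δ / 100 := hσδ.trans p1
  have hσ3 : σ ≤ 1 / 10000 := hσδ.trans p6
  have hB : ‖x' - xb‖ ≤ 31 / 100 * (δ * ρ) := by
    have e : x' - xb = (x' - s p) + ((s p - s yb) - (xb - s yb)) := by abel
    rw [e]
    have h1 := norm_add_le (x' - s p) ((s p - s yb) - (xb - s yb))
    have h2 := norm_sub_le (s p - s yb) (xb - s yb)
    have h3 := h.lip p yb hp' hyb
    have h4 : σ * ‖p - yb‖ ≤ 1 / 10000 * (6 / 10 * δ * ρ) :=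
      mul_le_mul hσ3 hP (norm_nonneg _) (by norm_num)
    have h5 := h.u
    have h6 : δ ^ 4 * ρ ≤ 1 / 1000 * (δ * ρ) := by
      have : δ ^ 4 ≤ 1 / 1000 * δ := by linarith
      have := mul_le_mul_of_nonneg_right this hρ.le
      linarith
    linarith
  have hsyp := h.lip y' p hy' hp'
  set r := ‖x' - s y'‖ with hr
  have hr0 : 0 ≤ r := norm_nonneg _
  have hrle : r ≤ 31 / 100 * (δ * ρ) := by
    have e : x' - s y' = (x' - s p) - (s y' - s p) := by abel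
    rw [hr, e]
    have h1 := norm_sub_le (x' - s p) (s y' - s p)
    have h4 : σ * ‖y' - p‖ ≤ 1 / 10000 * (3 / 10 * δ * ρ) :=
      mul_le_mul hσ3 hD (norm_nonneg _) (by norm_num)
    linarith
  -- the distance to the foot point
  set T := TT s p y' x' with hTdef
  have hT0 : 0 ≤ T := TT_nonneg
  have hTsq : T ^ 2 = ‖y' - p‖ ^ 2 + ‖x' - s p‖ ^ 2 := TT_sq
  have hTρ : T ≤ ρ := by
    have h1 : T ^ 2 ≤ ρ ^ 2 := by
      rw [hTsq]
      have h2 := pow_le_pow_left₀ (norm_nonneg _) hD 2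
      have h3 := pow_le_pow_left₀ (norm_nonneg _) hT 2
      have h4 : (3 / 10 * δ * ρ) ^ 2 ≤ 1 / 2 * ρ ^ 2 := by
        have e : (3 / 10 * δ * ρ) ^ 2 = 9 / 100 * δ ^ 2 * ρ ^ 2 := by ring
        rw [e]
        apply mul_le_mul_of_nonneg_right _ (sq_nonneg ρ)
        linarith
      linarith
    exact (abs_le_of_sq_le_sq' h1 hρ.le).2
  obtain ⟨η₂, hη₂⟩ := h.exists_eta (p := y') (by linarith)
  have hWW2 : W' ≤ WW κ δ ρ s s' Ds yb ηb xb Xb η₂ y' y' x' := by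
    have h1 := hmax y' y' η₂ x' (by linarith) hz hη₂
    have h2 := Real.exp_le_exp.1 (le_of_mul_le_mul_left h1 hg')
    linarith
  have hd := h.dist_le hp (show ‖y' - yb‖ ≤ ρ / 2 by linarith) hη hη₂ hTρ hWW2
  rw [← hr] at hd
  set D := ‖y' - p‖ with hDdef
  have hD0 : 0 ≤ D := norm_nonneg _
  -- `T` and `r` are close
  have hσD : σ * D ≤ 3 / 100 * (δ * r) := by
    have h1 : σ * D ≤ δ / 100 * (3 * δ * r) := mul_le_mul hσ2 hd hD0 (by positivity)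
    have h2 : δ * (δ * r) ≤ 1 / 100 * (δ * r) := mul_le_mul_of_nonneg_right hδ1 (by positivity)
    have h3 : δ / 100 * (3 * δ * r) = 3 / 100 * (δ * (δ * r)) := by ring
    have h4 : 0 ≤ δ * r := by positivity
    linarith
  have hEe1 : ‖x' - s p‖ ≤ r + 3 / 100 * (δ * r) := by
    have e : x' - s p = (x' - s y') + (s y' - s p) := by abel
    rw [e]
    linarith [norm_add_le (x' - s y') (s y' - s p)]
  have hEe2 : r - 3 / 100 * (δ * r) ≤ ‖x' - s p‖ := by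
    have e : x' - s y' = (x' - s p) - (s y' - s p) := by abel
    have h1 := norm_sub_le (x' - s p) (s y' - s p)
    rw [← e] at h1
    linarith
  have hTr1 : T ≤ (1 + δ) * r := by
    have h1 : T ^ 2 ≤ ((1 + δ) * r) ^ 2 := by
      rw [hTsq]
      have h2 := pow_le_pow_left₀ hD0 hd 2
      have h3 := pow_le_pow_left₀ (norm_nonneg _) hEe1 2
      have e1 : (3 * δ * r) ^ 2 = 9 * δ ^ 2 * r ^ 2 := by ring
      have e2 : (r + 3 / 100 * (δ * r)) ^ 2 = (1 + 6 / 100 * δ + 9 / 10000 * δ ^ 2) * r ^ 2 := by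
        ring
      have e3 : ((1 + δ) * r) ^ 2 = (1 + 2 * δ + δ ^ 2) * r ^ 2 := by ring
      rw [e1] at h2
      rw [e2] at h3
      rw [e3]
      have h4 : (9 * δ ^ 2 + (1 + 6 / 100 * δ + 9 / 10000 * δ ^ 2)) * r ^ 2
          ≤ (1 + 2 * δ + δ ^ 2) * r ^ 2 := by
        apply mul_le_mul_of_nonneg_right _ (sq_nonneg r)
        linarith
      linarith
    exact (abs_le_of_sq_le_sq' h1 (by positivity)).2
  have hTr2 : (1 - δ) * r ≤ T := by
    have h1 : ‖x' - s p‖ ≤ T := by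
      apply (abs_le_of_sq_le_sq' _ hT0).2
      rw [hTsq]
      linarith [sq_nonneg D]
    have : 0 ≤ δ * r := by positivity
    linarith
  obtain ⟨hc1, hc2⟩ := prof_cmp h.prof hδ hδ1 hr0 hT0 hTr1 hTr2
  have hκr := h.prof.pos r hr0
  have hκT := h.prof.pos T hT0
  set a := (1 + 4 * δ) * κ T with ha
  have ha0 : 0 < a := by positivity
  have ha1 : a ≤ (1 + 7 * δ) * κ r := by
    have h1 : a ≤ (1 + 4 * δ) * ((1 + 2 * δ) * κ r) :=
      mul_le_mul_of_nonneg_left hc1 (by positivity)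
    have h2 : (1 + 4 * δ) * ((1 + 2 * δ) * κ r) = (1 + 6 * δ + 8 * δ ^ 2) * κ r := by ring
    rw [h2] at h1
    refine h1.trans (mul_le_mul_of_nonneg_right ?_ hκr.le)
    linarith
  have ha2 : κ r - a ≤ 2 * δ * κ r := by
    have h0 : a = κ T + 4 * (δ * κ T) := by rw [ha]; ring
    have h3 : 0 ≤ δ * κ T := by positivity
    have h1 : κ r - a ≤ δ * κ T := by linarith
    have h2 : δ * κ T ≤ δ * ((1 + 2 * δ) * κ r) := mul_le_mul_of_nonneg_left hc1 hδ.le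
    have h4 : δ * ((1 + 2 * δ) * κ r) = (δ + 2 * δ ^ 2) * κ r := by ring
    have h5 : (δ + 2 * δ ^ 2) * κ r ≤ 2 * δ * κ r := mul_le_mul_of_nonneg_right (by linarith) hκr.le
    linarith
  have haT : a * T ≤ 104 / 100 * (κ ρ * ρ) := by
    have h1 := h.prof.mono T ρ hT0 hTρ
    have h2 : a * T = (1 + 4 * δ) * (T * κ T) := by rw [ha]; ring
    rw [h2]
    have h3 := mul_le_mul_of_nonneg_left h1 (show 0 ≤ 1 + 4 * δ by linarith)
    have h4 : (1 + 4 * δ) * (ρ * κ ρ) ≤ 104 / 100 * (ρ * κ ρ) :=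
      mul_le_mul_of_nonneg_right (by linarith) (by positivity)
    linarith
  -- the frequencies
  have hg1 := h.g_le' hp hη
  have hηb : ‖η - ηb‖ ≤ 2 / 100 * (κ ρ * ρ) := by
    have e : η - ηb = ((1 + 2 * δ) * κ ρ) • (p - yb)
        + ContinuousLinearMap.adjoint (Ds p) (Xb - s' η) := by
      nth_rewrite 1 [hη.2]; abel
    rw [e]
    refine (norm_add_le _ _).trans ?_
    have h1 : ‖((1 + 2 * δ) * κ ρ) • (p - yb)‖ ≤ 1 / 100 * (κ ρ * ρ) := by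
      rw [norm_smul, Real.norm_of_nonneg (by positivity)]
      have h2 : (1 + 2 * δ) * κ ρ * ‖p - yb‖ ≤ (1 + 2 * δ) * κ ρ * (6 / 10 * δ * ρ) :=
        mul_le_mul_of_nonneg_left hP (by positivity)
      have h3 : (1 + 2 * δ) * κ ρ * (6 / 10 * δ * ρ) = (6 / 10 * δ + 12 / 10 * δ ^ 2) * (κ ρ * ρ) := by
        ring
      rw [h3] at h2
      refine h2.trans (mul_le_mul_of_nonneg_right ?_ hKρ.le)
      linarith
    have h4 := h.adj_le hp' (Xb - s' η)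
    have h5 : σ * ‖Xb - s' η‖ ≤ 1 / 10000 * (δ ^ 2 * κ ρ * ρ) :=
      mul_le_mul hσ3 hg1 (norm_nonneg _) (by norm_num)
    have h6 : δ ^ 2 * κ ρ * ρ ≤ 1 / 10000 * (κ ρ * ρ) := by
      have := mul_le_mul_of_nonneg_right p6 hKρ.le
      linarith
    linarith
  have hDT : D ≤ T := by
    apply (abs_le_of_sq_le_sq' _ hT0).2
    rw [hTsq]
    linarith [sq_nonneg ‖x' - s p‖]
  have hET : ‖x' - s p‖ ≤ T := by
    apply (abs_le_of_sq_le_sq' _ hT0).2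
    rw [hTsq]
    linarith [sq_nonneg D]
  set η' := η + a • (y' - p) with hη'
  set X' := s' η + a • (x' - s p) with hX'
  have haD : ‖a • (y' - p)‖ ≤ 104 / 100 * (κ ρ * ρ) := by
    rw [norm_smul, Real.norm_of_nonneg ha0.le]
    exact (mul_le_mul_of_nonneg_left hDT ha0.le).trans haT
  have haE : ‖a • (x' - s p)‖ ≤ 104 / 100 * (κ ρ * ρ) := by
    rw [norm_smul, Real.norm_of_nonneg ha0.le]
    exact (mul_le_mul_of_nonneg_left hET ha0.le).trans haT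
  have hη'b : ‖η' - ηb‖ ≤ 106 / 100 * (κ ρ * ρ) := by
    have e : η' - ηb = (η - ηb) + a • (y' - p) := by rw [hη']; abel
    rw [e]
    linarith [norm_add_le (η - ηb) (a • (y' - p))]
  have hX'b : ‖X' - Xb‖ ≤ 106 / 100 * (κ ρ * ρ) := by
    have e : X' - Xb = a • (x' - s p) - (Xb - s' η) := by rw [hX']; abel
    rw [e]
    have h1 := norm_sub_le (a • (x' - s p)) (Xb - s' η)
    have h6 : δ ^ 2 * κ ρ * ρ ≤ 1 / 10000 * (κ ρ * ρ) := by
      have := mul_le_mul_of_nonneg_right p6 hKρ.le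
      linarith
    linarith
  have hball : ‖η' - ηb‖ ≤ 3 * κ ρ * ρ := by
    have : 3 * κ ρ * ρ = 3 * (κ ρ * ρ) := by ring
    rw [this]
    linarith
  refine ⟨y', η', x', X', ?_, ?_, ?_, ?_, ?_, ?_⟩
  · have h1 := pow_le_pow_left₀ (norm_nonneg _) hA 2
    have h2 := pow_le_pow_left₀ (norm_nonneg _) hB 2
    have e1 : (3 / 10 * δ * ρ) ^ 2 = 9 / 100 * (δ * ρ) ^ 2 := by ring
    have e2 : (31 / 100 * (δ * ρ)) ^ 2 = 961 / 10000 * (δ * ρ) ^ 2 := by ring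
    rw [e1] at h1
    rw [e2] at h2
    linarith [sq_nonneg (δ * ρ)]
  · have h1 := pow_le_pow_left₀ (norm_nonneg _) hη'b 2
    have h2 := pow_le_pow_left₀ (norm_nonneg _) hX'b 2
    have e1 : (106 / 100 * (κ ρ * ρ)) ^ 2 = 11236 / 10000 * (κ ρ * ρ) ^ 2 := by ring
    have e2 : (3 * (κ ρ * ρ)) ^ 2 = 9 * (κ ρ * ρ) ^ 2 := by ring
    rw [e1] at h1 h2
    rw [e2]
    linarith [sq_nonneg (κ ρ * ρ)]
  · linarith
  · refine le_trans (mul_le_mul_of_nonneg_left (Real.exp_le_exp.2 ?_) hgb.le) hval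
    have h1 : 0 ≤ κ ρ * (δ / 4 * (‖y' - yb‖ ^ 2 + D ^ 2 + ‖x' - s p‖ ^ 2)) := by positivity
    have h2 : 0 ≤ (1 + δ) * κ ρ / 2 * (‖y' - yb‖ ^ 2 + ‖x' - xb‖ ^ 2) := by positivity
    have h3 : κ ρ * (5 * δ ^ 7 * ρ ^ 2) + κ ρ * (2 * δ ^ 4 * ρ ^ 2) ≤ δ ^ 3 * (κ ρ * ρ ^ 2) := by
      have e : κ ρ * (5 * δ ^ 7 * ρ ^ 2) + κ ρ * (2 * δ ^ 4 * ρ ^ 2)
          = (5 * δ ^ 7 + 2 * δ ^ 4) * (κ ρ * ρ ^ 2) := by ring
      rw [e]
      apply mul_le_mul_of_nonneg_right _ hKρ2.le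
      have h4 : δ ^ 4 ≤ 1 / 100 * δ ^ 3 := by
        have := mul_le_mul_of_nonneg_right hδ1 (show 0 ≤ δ ^ 3 by positivity)
        have e2 : δ ^ 4 = δ * δ ^ 3 := by ring
        linarith
      have h5 : δ ^ 7 ≤ 1 / 100 * δ ^ 3 := by
        have h6 : δ ^ 4 ≤ 1 / 100 := by linarith
        have := mul_le_mul_of_nonneg_right h6 (show 0 ≤ δ ^ 3 by positivity)
        have e2 : δ ^ 7 = δ ^ 4 * δ ^ 3 := by ring
        linarith
      have h6 : 0 ≤ δ ^ 3 := by positivity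
      linarith
    linarith
  · -- the frequency displacement
    have e : (X' - s' η') - κ r • (x' - s y')
        = (s' η - s' η') + (a • (s y' - s p) + (a - κ r) • (x' - s y')) := by
      rw [hX', show x' - s p = (x' - s y') + (s y' - s p) by abel, smul_add, sub_smul]
      abel
    rw [e]
    have h1 := h.sl η η' hη.1 hball
    have h2 : ‖η - η'‖ ≤ a * D := by
      have e2 : η - η' = -(a • (y' - p)) := by rw [hη']; abel
      rw [e2, norm_neg, norm_smul, Real.norm_of_nonneg ha0.le]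
    have h3 : ‖a • (s y' - s p)‖ ≤ a * (σ * D) := by
      rw [norm_smul, Real.norm_of_nonneg ha0.le]
      exact mul_le_mul_of_nonneg_left hsyp ha0.le
    have h4 : ‖(a - κ r) • (x' - s y')‖ ≤ 7 * δ * κ r * r := by
      rw [norm_smul, ← hr]
      apply mul_le_mul_of_nonneg_right _ hr0
      rw [Real.norm_eq_abs, abs_le]
      have h5 : 0 ≤ δ * κ r := by positivity
      constructor <;> linarith
    have h5 : σ * ‖η - η'‖ ≤ a * (σ * D) := by
      have := mul_le_mul_of_nonneg_left h2 hσ0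
      linarith
    have h6 : a * (σ * D) ≤ 2 * κ r * (3 / 100 * (δ * r)) := by
      apply mul_le_mul _ hσD (by positivity) (by positivity)
      refine ha1.trans (mul_le_mul_of_nonneg_right ?_ hκr.le)
      linarith
    have h7 := norm_add_le (s' η - s' η') (a • (s y' - s p) + (a - κ r) • (x' - s y'))
    have h8 := norm_add_le (a • (s y' - s p)) ((a - κ r) • (x' - s y'))
    have h9 : 0 ≤ δ * (κ r * r) := by positivity
    have h10 : 2 * κ r * (3 / 100 * (δ * r)) = 6 / 100 * (δ * (κ r * r)) := by ring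
    have h11 : 7 * δ * κ r * r = 7 * (δ * (κ r * r)) := by ring
    have h12 : 50 * δ * (κ r * r) = 50 * (δ * (κ r * r)) := by ring
    rw [h12]
    linarith
  · intro y x hyx
    have hzz : ‖y - yb‖ ^ 2 + ‖x - xb‖ ^ 2 ≤ (ρ / 4) ^ 2 := by
      have e1 : y - yb = (y - y') + (y' - yb) := by abel
      have e2 : x - xb = (x - x') + (x' - xb) := by abel
      have h1 : ‖y - yb‖ ^ 2 ≤ 2 * (‖y - y'‖ ^ 2 + ‖y' - yb‖ ^ 2) := by
        rw [e1]
        have h0 := pow_le_pow_left₀ (norm_nonneg _) (norm_add_le (y - y') (y' - yb)) 2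
        have h00 := sq_nonneg (‖y - y'‖ - ‖y' - yb‖)
        have h000 : (‖y - y'‖ + ‖y' - yb‖) ^ 2 + (‖y - y'‖ - ‖y' - yb‖) ^ 2
          = 2 * (‖y - y'‖ ^ 2 + ‖y' - yb‖ ^ 2) := by ring
        linarith
      have h2 : ‖x - xb‖ ^ 2 ≤ 2 * (‖x - x'‖ ^ 2 + ‖x' - xb‖ ^ 2) := by
        rw [e2]
        have h0 := pow_le_pow_left₀ (norm_nonneg _) (norm_add_le (x - x') (x' - xb)) 2
        have h00 := sq_nonneg (‖x - x'‖ - ‖x' - xb‖)
        have h000 : (‖x - x'‖ + ‖x' - xb‖) ^ 2 + (‖x - x'‖ - ‖x' - xb‖) ^ 2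
          = 2 * (‖x - x'‖ ^ 2 + ‖x' - xb‖ ^ 2) := by ring
        linarith
      have h3 := pow_le_pow_left₀ (norm_nonneg _) hA 2
      have h4 := pow_le_pow_left₀ (norm_nonneg _) hB 2
      have e3 : (3 / 10 * δ * ρ) ^ 2 = 9 / 100 * δ ^ 2 * ρ ^ 2 := by ring
      have e4 : (31 / 100 * (δ * ρ)) ^ 2 = 961 / 10000 * δ ^ 2 * ρ ^ 2 := by ring
      rw [e3] at h3
      rw [e4] at h4
      have h5 : δ ^ 2 * ρ ^ 2 ≤ 1 / 10000 * ρ ^ 2 := mul_le_mul_of_nonneg_right p6 (sq_nonneg ρ)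
      have h6 : 0 ≤ ρ ^ 2 := sq_nonneg ρ
      have h7 : (ρ / 8) ^ 2 = ρ ^ 2 / 64 := by ring
      have h8 : (ρ / 4) ^ 2 = ρ ^ 2 / 16 := by ring
      rw [h7] at hyx
      rw [h8]
      linarith
    have h1 := hmax p y η x hp hzz hη
    have h2 : g y x ≤ g y' x' * Real.exp (WW κ δ ρ s s' Ds yb ηb xb Xb η p y x - W') := by
      have h3 := mul_le_mul_of_nonneg_right h1
        (Real.exp_pos (WW κ δ ρ s s' Ds yb ηb xb Xb η p y x)).le
      rw [mul_assoc, mul_assoc, ← Real.exp_add, ← Real.exp_add, neg_add_cancel, Real.exp_zero,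
        mul_one] at h3
      rwa [show WW κ δ ρ s s' Ds yb ηb xb Xb η p y x - W'
        = -W' + WW κ δ ρ s s' Ds yb ηb xb Xb η p y x by ring]
    refine h2.trans (mul_le_mul_of_nonneg_left (Real.exp_le_exp.2 ?_) hg'.le)
    have h3 := WW_touch (s := s) (xb := xb) h.prof hδ hη y y' x x'
    rw [← hTdef, ← ha, ← hη', ← hX'] at h3
    have h4 : a / 2 * (‖y - y'‖ ^ 2 + ‖x - x'‖ ^ 2)
        ≤ (1 + 50 * δ) * κ r / 2 * (‖y - y'‖ ^ 2 + ‖x - x'‖ ^ 2) := by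
      apply mul_le_mul_of_nonneg_right _ (by positivity)
      have : 0 ≤ δ * κ r := by positivity
      linarith
    linarith

end Pool.Agent.H60.FT
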