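import Mathlib

/-!
Cauchy estimates for the leaf maps (project FT, MP_6e521b_an).
-/

open Set Metric

namespace Pool.Agent.H60.FT

variable {E G : Type*} [NormedAddCommGroup E] [NormedSpace ℂ E] [NormedAddCommGroup G]
  [NormedSpace ℂ G]

variable {s : E → G} {yb : E} {ρ σ : ℝ}

lemma fd_norm (hσ : 0 ≤ σ) (hρ : 0 < ρ)
    (hd : ∀ y, ‖y - yb‖ < 4 * ρ → DifferentiableAt ℂ s y)
    (hl : ∀ y z, ‖y - yb‖ < 4 * ρ → ‖z - yb‖ < 4 * ρ → ‖s y - s z‖ ≤ σ / 8 * ‖y - z‖)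
    {y : E} (hy : ‖y - yb‖ ≤ ρ) : ‖fderiv ℂ s y‖ ≤ σ / 8 := by
  have hy4 : ‖y - yb‖ < 4 * ρ := by linarith
  apply (hd y hy4).hasFDerivAt.le_of_lip' (by positivity)
  have h1 : ∀ᶠ x in nhds y, ‖x - yb‖ < 4 * ρ := by
    have : Continuous fun x : E => ‖x - yb‖ := by fun_prop
    exact this.continuousAt.eventually_lt continuousAt_const hy4
  filter_upwards [h1] with x hx
  exact hl x y hx hy4

lemma fd_lip (hσ : 0 ≤ σ) (hρ : 0 < ρ)
    (hd : ∀ y, ‖y - yb‖ < 4 * ρ → DifferentiableAt ℂ s y)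
    (hl : ∀ y z, ‖y - yb‖ < 4 * ρ → ‖z - yb‖ < 4 * ρ → ‖s y - s z‖ ≤ σ / 8 * ‖y - z‖)
    {y z : E} (hy : ‖y - yb‖ ≤ ρ) (hz : ‖z - yb‖ ≤ ρ) :
    ‖fderiv ℂ s y - fderiv ℂ s z‖ ≤ σ / ρ * ‖y - z‖ := by
  apply ContinuousLinearMap.opNorm_le_bound _ (by positivity)
  intro v
  rcases eq_or_ne v 0 with rfl | hv
  · simp
  have hv0 : 0 < ‖v‖ := norm_pos_iff.2 hv
  set R := 2 * ρ / ‖v‖ with hR
  have hR0 : 0 < R := by positivity
  have hdom : ∀ w : E, ‖w - yb‖ ≤ ρ → ∀ τ : ℂ, ‖τ‖ ≤ R → ‖w + τ • v - yb‖ < 4 * ρ := by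
    intro w hw τ hτ
    have e : w + τ • v - yb = (w - yb) + τ • v := by abel
    rw [e]
    have h1 := norm_add_le (w - yb) (τ • v)
    rw [norm_smul] at h1
    have h2 : ‖τ‖ * ‖v‖ ≤ 2 * ρ := by
      have := mul_le_mul_of_nonneg_right hτ hv0.le
      rwa [hR, div_mul_cancel₀ _ hv0.ne'] at this
    linarith
  set φ : ℂ → G := fun τ => s (y + τ • v) - s (z + τ • v) with hφ
  have hline : ∀ (w : E) (τ : ℂ), HasDerivAt (fun τ : ℂ => w + τ • v) v τ := by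
    intro w τ
    have h1 := ((hasDerivAt_id τ).smul_const v).const_add w
    simpa using h1
  have hone : ∀ w : E, ‖w - yb‖ ≤ ρ → ∀ τ : ℂ, ‖τ‖ ≤ R →
      HasDerivAt (fun τ : ℂ => s (w + τ • v)) (fderiv ℂ s (w + τ • v) v) τ := by
    intro w hw τ hτ
    have h1 := (hd (w + τ • v) (hdom w hw τ hτ)).hasFDerivAt
    exact h1.comp_hasDerivAt τ (hline w τ)
  have hφd : ∀ τ : ℂ, ‖τ‖ ≤ R →
      HasDerivAt φ (fderiv ℂ s (y + τ • v) v - fderiv ℂ s (z + τ • v) v) τ :=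
    fun τ hτ => (hone y hy τ hτ).fun_sub (hone z hz τ hτ)
  have hdc : DiffContOnCl ℂ φ (ball 0 R) := by
    apply DifferentiableOn.diffContOnCl
    intro τ hτ
    rw [closure_ball _ hR0.ne', mem_closedBall_zero_iff] at hτ
    exact (hφd τ hτ).differentiableAt.differentiableWithinAt
  have hb : ∀ τ ∈ sphere (0 : ℂ) R, ‖φ τ‖ ≤ σ / 8 * ‖y - z‖ := by
    intro τ hτ
    have hτ' : ‖τ‖ ≤ R := by
      rw [mem_sphere_zero_iff_norm] at hτ
      exact hτ.le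
    have h1 := hl _ _ (hdom y hy τ hτ') (hdom z hz τ hτ')
    have e : y + τ • v - (z + τ • v) = y - z := by abel
    rwa [e] at h1
  have hmain := Complex.norm_deriv_le_of_forall_mem_sphere_norm_le hR0 hdc hb
  have hder := (hφd 0 (by rw [norm_zero]; exact hR0.le)).deriv
  rw [zero_smul, add_zero, add_zero] at hder
  rw [hder] at hmain
  rw [sub_apply]
  refine hmain.trans ?_
  have e : σ / 8 * ‖y - z‖ / R = σ / (16 * ρ) * ‖y - z‖ * ‖v‖ := by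
    rw [hR]
    field_simp
    ring
  rw [e]
  have h1 : σ / (16 * ρ) ≤ σ / ρ := by
    apply div_le_div_of_nonneg_left hσ hρ
    linarith
  have h2 : 0 ≤ ‖y - z‖ * ‖v‖ := by positivity
  calc σ / (16 * ρ) * ‖y - z‖ * ‖v‖ = σ / (16 * ρ) * (‖y - z‖ * ‖v‖) := by ring
    _ ≤ σ / ρ * (‖y - z‖ * ‖v‖) := mul_le_mul_of_nonneg_right h1 h2
    _ = _ := by ring

lemma fd_tay [NormedSpace ℝ E] (hσ : 0 ≤ σ) (hρ : 0 < ρ)
    (hd : ∀ y, ‖y - yb‖ < 4 * ρ → DifferentiableAt ℂ s y)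
    (hl : ∀ y z, ‖y - yb‖ < 4 * ρ → ‖z - yb‖ < 4 * ρ → ‖s y - s z‖ ≤ σ / 8 * ‖y - z‖)
    {y p : E} (hy : ‖y - yb‖ ≤ ρ) (hp : ‖p - yb‖ ≤ ρ) :
    ‖s y - s p - fderiv ℂ s p (y - p)‖ ≤ σ / ρ * ‖y - p‖ ^ 2 := by
  have hconv : Convex ℝ {y : E | ‖y - yb‖ ≤ ρ} := by
    have : {y : E | ‖y - yb‖ ≤ ρ} = closedBall yb ρ := by
      ext y; simp [mem_closedBall, dist_eq_norm]
    rw [this]
    exact convex_closedBall _ _
  have hseg : ∀ z ∈ segment ℝ p y, ‖z - yb‖ ≤ ρ := fun z hz => hconv.segment_subset hp hy hz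
  have h1 := Convex.norm_image_sub_le_of_norm_hasFDerivWithin_le' (f := s) (f' := fderiv ℂ s)
    (φ := fderiv ℂ s p) (C := σ / ρ * ‖y - p‖) (s := segment ℝ p y) (x := p) (y := y)
    (fun z hz => (hd z (by linarith [hseg z hz])).hasFDerivAt.hasFDerivWithinAt)
    (fun z hz => by
      refine (fd_lip hσ hρ hd hl (hseg z hz) hp).trans ?_
      have h2 : ‖z - p‖ ≤ ‖y - p‖ := by
        obtain ⟨a, b, ha, hb, hab, rfl⟩ := hz
        have e : a • p + b • y - p = b • (y - p) := by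
          have : a = 1 - b := by linarith
          subst this
          module
        rw [e, norm_smul, Real.norm_of_nonneg hb]
        have : b ≤ 1 := by linarith
        nlinarith [norm_nonneg (y - p)]
      exact mul_le_mul_of_nonneg_left h2 (div_nonneg hσ hρ.le))
    (convex_segment _ _) (left_mem_segment _ _ _) (right_mem_segment _ _ _)
  refine h1.trans (le_of_eq ?_)
  ring

end Pool.Agent.H60.FT
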