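import Mathlib

/-!
Numerical inequalities for the A-step (project FT, MP_6e521b_an).
-/

namespace Pool.Agent.H60.FT

lemma num_beta {A D q δ : ℝ} : (q + δ ^ 2 * (A + D)) ^ 2
    ≤ 2 * q ^ 2 + 4 * δ ^ 4 * (A ^ 2 + D ^ 2) := by
  have h3 : 0 ≤ δ ^ 4 * (A - D) ^ 2 := by positivity
  have h4 : 0 ≤ (q - δ ^ 2 * (A + D)) ^ 2 := sq_nonneg _
  nlinarith

lemma num_b {T β B δ : ℝ} (hδ : 0 < δ) (hB : 0 ≤ B) (hB1 : B ≤ T + β) :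
    δ * B ^ 2 ≤ δ * (1 + δ) * T ^ 2 + (1 + δ) * β ^ 2 := by
  have h1 : δ * (T + β) ^ 2 ≤ δ * (1 + δ) * T ^ 2 + (1 + δ) * β ^ 2 := by
    have e : δ * (1 + δ) * T ^ 2 + (1 + δ) * β ^ 2 - δ * (T + β) ^ 2 = (δ * T - β) ^ 2 := by ring
    linarith [sq_nonneg (δ * T - β)]
  have h2 := mul_le_mul_of_nonneg_left (pow_le_pow_left₀ hB hB1 2) hδ.le
  linarith

lemma num_g {A D T q g δ σ : ℝ} (hA : 0 ≤ A) (hD : 0 ≤ D) (hT : 0 ≤ T)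
    (hg : 0 ≤ g) (hq : 0 ≤ q) (hδ : 0 < δ) (hσδ : σ ≤ δ ^ 2)
    (hg2 : g ≤ 101 / 100 * q + 105 / 100 * δ ^ 2 * (A + D)) :
    δ * ((T + σ * D) * g) ≤ 101 / 100 * (δ ^ 2 * T ^ 2 / 8 + 2 * q ^ 2)
      + 105 / 100 * δ ^ 3 * (T ^ 2 + (A ^ 2 + D ^ 2) / 2)
      + 101 / 100 * δ ^ 2 * (D ^ 2 * δ ^ 2 / 2 + q ^ 2 / 2)
      + 105 / 100 * δ ^ 5 * (2 * (A ^ 2 + D ^ 2)) := by
  have hx1 : T * q * δ ≤ δ ^ 2 * T ^ 2 / 8 + 2 * q ^ 2 := by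
    linarith [sq_nonneg (δ * T - 4 * q), show (δ * T - 4 * q) ^ 2
      = 8 * (δ ^ 2 * T ^ 2 / 8 + 2 * q ^ 2) - 8 * (T * q * δ) by ring]
  have hx2 : T * (A + D) ≤ T ^ 2 + (A ^ 2 + D ^ 2) / 2 := by
    linarith [sq_nonneg (2 * T - (A + D)), sq_nonneg (A - D),
      show (2 * T - (A + D)) ^ 2 + (A - D) ^ 2
        = 4 * (T ^ 2 + (A ^ 2 + D ^ 2) / 2) - 4 * (T * (A + D)) by ring]
  have hx3 : D * (A + D) ≤ 2 * (A ^ 2 + D ^ 2) := by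
    linarith [sq_nonneg (A - D), sq_nonneg A, sq_nonneg D,
      show (A - D) ^ 2 + 3 * A ^ 2 + D ^ 2 = 2 * (2 * (A ^ 2 + D ^ 2)) - 2 * (D * (A + D)) by ring]
  have hx4 : D * q * δ ≤ D ^ 2 * δ ^ 2 / 2 + q ^ 2 / 2 := by
    linarith [sq_nonneg (δ * D - q), show (δ * D - q) ^ 2
      = 2 * (D ^ 2 * δ ^ 2 / 2 + q ^ 2 / 2) - 2 * (D * q * δ) by ring]
  have hσD : T + σ * D ≤ T + δ ^ 2 * D := by
    linarith [mul_le_mul_of_nonneg_right hσδ hD]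
  have hG : (T + σ * D) * g ≤ (T + δ ^ 2 * D) * (101 / 100 * q + 105 / 100 * δ ^ 2 * (A + D)) :=
    mul_le_mul hσD hg2 hg (by positivity)
  have e1 : δ * ((T + δ ^ 2 * D) * (101 / 100 * q + 105 / 100 * δ ^ 2 * (A + D)))
      = 101 / 100 * (T * q * δ) + 105 / 100 * δ ^ 3 * (T * (A + D))
        + 101 / 100 * δ ^ 2 * (D * q * δ) + 105 / 100 * δ ^ 5 * (D * (A + D)) := by ring
  have h0 := mul_le_mul_of_nonneg_left hG hδ.le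
  rw [e1] at h0
  have h1 := mul_le_mul_of_nonneg_left hx2 (show 0 ≤ 105 / 100 * δ ^ 3 by positivity)
  have h2 := mul_le_mul_of_nonneg_left hx4 (show 0 ≤ 101 / 100 * δ ^ 2 by positivity)
  have h3 := mul_le_mul_of_nonneg_left hx3 (show 0 ≤ 105 / 100 * δ ^ 5 by positivity)
  linarith

/-- Powers of `δ`. -/
lemma num_pow {δ : ℝ} (hδ : 0 < δ) (hδ1 : δ ≤ 1 / 100) : δ ^ 3 ≤ δ ^ 2 / 100 ∧
    δ ^ 4 ≤ δ ^ 2 / 10000 ∧ δ ^ 5 ≤ δ ^ 2 / 1000000 ∧ δ ^ 2 ≤ 1 / 10000 ∧ δ ^ 2 ≤ δ / 100 := by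
  have p1 : δ ^ 2 ≤ δ / 100 := by
    have h1 := mul_le_mul_of_nonneg_left hδ1 hδ.le
    have e : δ ^ 2 = δ * δ := by ring
    linarith
  have p2 : δ ^ 3 ≤ δ ^ 2 / 100 := by
    have h1 := mul_le_mul_of_nonneg_left hδ1 (show 0 ≤ δ ^ 2 by positivity)
    have e : δ ^ 3 = δ ^ 2 * δ := by ring
    linarith
  have p3 : δ ^ 4 ≤ δ ^ 2 / 10000 := by
    have h1 := mul_le_mul_of_nonneg_left hδ1 (show 0 ≤ δ ^ 3 by positivity)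
    have e : δ ^ 4 = δ ^ 3 * δ := by ring
    linarith
  have p4 : δ ^ 5 ≤ δ ^ 2 / 1000000 := by
    have h1 := mul_le_mul_of_nonneg_left hδ1 (show 0 ≤ δ ^ 4 by positivity)
    have e : δ ^ 5 = δ ^ 4 * δ := by ring
    linarith
  exact ⟨p2, p3, p4, by linarith, p1⟩

/-- The lower bound of the weight, numerical part (everything divided by `K`). -/
lemma num_low {A D T B P g ρ δ σ : ℝ} (hA : 0 ≤ A) (hD : 0 ≤ D) (hT : 0 ≤ T) (hB : 0 ≤ B)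
    (hP : 0 ≤ P) (hg : 0 ≤ g) (hρ : 0 < ρ) (hδ : 0 < δ) (hδ1 : δ ≤ 1 / 100)
    (hσδ : σ ≤ δ ^ 2) (hPA : P ≤ A + D) (hBT : B ≤ T + (δ ^ 4 * ρ + σ * P))
    (hgP : g ≤ 101 / 100 * (δ ^ 4 * ρ + 103 / 100 * σ * P)) :
    δ / 4 * (A ^ 2 + D ^ 2 + T ^ 2) - 5 * δ ^ 7 * ρ ^ 2
      ≤ (δ * A ^ 2 + 2 * δ * D ^ 2 + (1 + 4 * δ) * T ^ 2 - (1 + δ) * B ^ 2) / 2
        - (T + σ * D) * g := by
  obtain ⟨p2, p3, p4, p6, p1⟩ := num_pow hδ hδ1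
  set q := δ ^ 4 * ρ with hq
  have hq0 : 0 ≤ q := by positivity
  have hσP : σ * P ≤ δ ^ 2 * (A + D) := mul_le_mul hσδ hPA hP (by positivity)
  have hAD : 0 ≤ δ ^ 2 * (A + D) := by positivity
  have hg2 : g ≤ 101 / 100 * q + 105 / 100 * δ ^ 2 * (A + D) := by linarith
  -- the term `B`
  have hB1 : B ≤ T + (q + δ ^ 2 * (A + D)) := by linarith
  have hβ2 := num_beta (A := A) (D := D) (q := q) (δ := δ)
  have hB3 := num_b hδ hB hB1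
  set β := q + δ ^ 2 * (A + D) with hβ
  have hG2 := num_g hA hD hT hg hq0 hδ hσδ hg2
  -- multiply by `δ`
  have key : δ * (δ / 4 * (A ^ 2 + D ^ 2 + T ^ 2) - 5 * δ ^ 7 * ρ ^ 2)
      ≤ δ * ((δ * A ^ 2 + 2 * δ * D ^ 2 + (1 + 4 * δ) * T ^ 2 - (1 + δ) * B ^ 2) / 2
        - (T + σ * D) * g) := by
    have hB4 : (1 + δ) * (δ * B ^ 2) ≤ (1 + δ) * (δ * (1 + δ) * T ^ 2 + (1 + δ) * β ^ 2) :=
      mul_le_mul_of_nonneg_left hB3 (by positivity)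
    have hβ3 : (1 + δ) ^ 2 * β ^ 2 ≤ (1 + δ) ^ 2 * (2 * q ^ 2 + 4 * δ ^ 4 * (A ^ 2 + D ^ 2)) :=
      mul_le_mul_of_nonneg_left hβ2 (by positivity)
    have hA2 : 0 ≤ A ^ 2 := sq_nonneg _
    have hD2 : 0 ≤ D ^ 2 := sq_nonneg _
    have hT2 : 0 ≤ T ^ 2 := sq_nonneg _
    have hq2 : 0 ≤ q ^ 2 := sq_nonneg _
    -- coefficients
    have p5 : (1 + δ) ^ 2 ≤ 103 / 100 := by
      have e : (1 + δ) ^ 2 = 1 + 2 * δ + δ ^ 2 := by ring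
      linarith
    have c1 : (1 + δ) ^ 2 * (4 * δ ^ 4) ≤ δ ^ 2 / 1000 := by
      have : (1 + δ) ^ 2 * (4 * δ ^ 4) ≤ 103 / 100 * (4 * (δ ^ 2 / 10000)) :=
        mul_le_mul p5 (by linarith) (by positivity) (by norm_num)
      have h0 : 0 ≤ δ ^ 2 := by positivity
      linarith
    have c2 : (1 + δ) ^ 2 * 2 ≤ 206 / 100 := by linarith
    have d1 := mul_le_mul_of_nonneg_right c1 hA2
    have d2 := mul_le_mul_of_nonneg_right c1 hD2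
    have d3 := mul_le_mul_of_nonneg_right c2 hq2
    have s1 : (1 + δ) * (δ * B ^ 2) ≤ (δ + 2 * δ ^ 2 + δ ^ 3) * T ^ 2
        + (206 / 100 * q ^ 2 + (δ ^ 2 / 1000 * A ^ 2 + δ ^ 2 / 1000 * D ^ 2)) := by
      have t1 : (1 + δ) * (δ * (1 + δ) * T ^ 2 + (1 + δ) * β ^ 2)
          = (δ + 2 * δ ^ 2 + δ ^ 3) * T ^ 2 + (1 + δ) ^ 2 * β ^ 2 := by ring
      have t2 : (1 + δ) ^ 2 * (2 * q ^ 2 + 4 * δ ^ 4 * (A ^ 2 + D ^ 2))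
          = (1 + δ) ^ 2 * 2 * q ^ 2 + ((1 + δ) ^ 2 * (4 * δ ^ 4) * A ^ 2
            + (1 + δ) ^ 2 * (4 * δ ^ 4) * D ^ 2) := by ring
      rw [t1] at hB4
      rw [t2] at hβ3
      linarith
    have d4 := mul_le_mul_of_nonneg_right p2 hA2
    have d5 := mul_le_mul_of_nonneg_right p2 hD2
    have d6 := mul_le_mul_of_nonneg_right p2 hT2
    have d7 := mul_le_mul_of_nonneg_right p3 hD2
    have d8 := mul_le_mul_of_nonneg_right p4 hA2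
    have d9 := mul_le_mul_of_nonneg_right p4 hD2
    have d10 := mul_le_mul_of_nonneg_right p6 hq2
    have d11 : 0 ≤ δ ^ 2 * T ^ 2 := by positivity
    have d12 : 0 ≤ δ ^ 2 * A ^ 2 := by positivity
    have d13 : 0 ≤ δ ^ 2 * D ^ 2 := by positivity
    have e3 : δ * (δ / 4 * (A ^ 2 + D ^ 2 + T ^ 2) - 5 * δ ^ 7 * ρ ^ 2)
        = (δ ^ 2 * A ^ 2 + δ ^ 2 * D ^ 2 + δ ^ 2 * T ^ 2) / 4 - 5 * q ^ 2 := by
      rw [hq]; ring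
    have e4 : δ * ((δ * A ^ 2 + 2 * δ * D ^ 2 + (1 + 4 * δ) * T ^ 2 - (1 + δ) * B ^ 2) / 2
        - (T + σ * D) * g) = (δ ^ 2 * A ^ 2 + 2 * (δ ^ 2 * D ^ 2) + δ * T ^ 2
          + 4 * (δ ^ 2 * T ^ 2) - (1 + δ) * (δ * B ^ 2)) / 2 - δ * ((T + σ * D) * g) := by ring
    have e5 : (δ + 2 * δ ^ 2 + δ ^ 3) * T ^ 2 = δ * T ^ 2 + 2 * (δ ^ 2 * T ^ 2) + δ ^ 3 * T ^ 2 := by
      ring
    have e6 : 101 / 100 * (δ ^ 2 * T ^ 2 / 8 + 2 * q ^ 2)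
      + 105 / 100 * δ ^ 3 * (T ^ 2 + (A ^ 2 + D ^ 2) / 2)
      + 101 / 100 * δ ^ 2 * (D ^ 2 * δ ^ 2 / 2 + q ^ 2 / 2)
      + 105 / 100 * δ ^ 5 * (2 * (A ^ 2 + D ^ 2))
      = 101 / 800 * (δ ^ 2 * T ^ 2) + 202 / 100 * q ^ 2 + 105 / 100 * (δ ^ 3 * T ^ 2)
        + 105 / 200 * (δ ^ 3 * A ^ 2) + 105 / 200 * (δ ^ 3 * D ^ 2)
        + 101 / 200 * (δ ^ 4 * D ^ 2) + 101 / 200 * (δ ^ 2 * q ^ 2)
        + 210 / 100 * (δ ^ 5 * A ^ 2) + 210 / 100 * (δ ^ 5 * D ^ 2) := by ring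
    rw [e3, e4]
    rw [e5] at s1
    rw [e6] at hG2
    linarith
  exact le_of_mul_le_mul_left key hδ

end Pool.Agent.H60.FT
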