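import Pool.Agent.H60.FT.Prof
import Pool.Agent.H60.FT.AStepNum

/-!
The A-step (project FT, MP_6e521b_an): the family of weights.
-/

open Set Metric
open scoped InnerProductSpace

set_option linter.unusedSectionVars false

namespace Pool.Agent.H60.FT

variable {E G : Type*} [NormedAddCommGroup E] [InnerProductSpace ℝ E] [CompleteSpace E]
  [NormedAddCommGroup G] [InnerProductSpace ℝ G] [CompleteSpace G]

/-- The hypotheses of the A-step on the leaf maps `s`, `s'` and the contact. -/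
structure AData (κ : ℝ → ℝ) (δ σ ρ : ℝ) (s s' : E → G) (Ds : E → E →L[ℝ] G)
    (yb ηb : E) (xb Xb : G) : Prop where
  prof : Prof κ
  δ0 : 0 < δ
  δ1 : δ ≤ 1 / 100
  σ0 : 0 ≤ σ
  σδ : σ ≤ δ ^ 2
  ρ0 : 0 < ρ
  lip : ∀ y y₂, ‖y - yb‖ ≤ ρ → ‖y₂ - yb‖ ≤ ρ → ‖s y - s y₂‖ ≤ σ * ‖y - y₂‖
  tay : ∀ y p, ‖y - yb‖ ≤ ρ → ‖p - yb‖ ≤ ρ → ‖s y - s p - Ds p (y - p)‖ ≤ σ / ρ * ‖y - p‖ ^ 2
  dn : ∀ y, ‖y - yb‖ ≤ ρ → ‖Ds y‖ ≤ σ
  dl : ∀ y y₂, ‖y - yb‖ ≤ ρ → ‖y₂ - yb‖ ≤ ρ → ‖Ds y - Ds y₂‖ ≤ σ / ρ * ‖y - y₂‖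
  sl : ∀ η η₂, ‖η - ηb‖ ≤ 3 * κ ρ * ρ → ‖η₂ - ηb‖ ≤ 3 * κ ρ * ρ →
    ‖s' η - s' η₂‖ ≤ σ * ‖η - η₂‖
  u : ‖xb - s yb‖ ≤ δ ^ 4 * ρ
  U : ‖Xb - s' ηb‖ ≤ δ ^ 4 * κ ρ * ρ

variable {κ : ℝ → ℝ} {δ σ ρ : ℝ} {s s' : E → G} {Ds : E → E →L[ℝ] G}
  {yb ηb : E} {xb Xb : G}

/-- The frequency `η` of the parameter `p`. -/
def IsEta (κ : ℝ → ℝ) (δ ρ : ℝ) (s' : E → G) (Ds : E → E →L[ℝ] G) (yb ηb : E) (Xb : G)
    (p η : E) : Prop :=
  ‖η - ηb‖ ≤ 3 * κ ρ * ρ ∧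
    η = ηb + ((1 + 2 * δ) * κ ρ) • (p - yb) + ContinuousLinearMap.adjoint (Ds p) (Xb - s' η)

namespace AData

variable (h : AData κ δ σ ρ s s' Ds yb ηb xb Xb)

include h

lemma K0 : 0 < κ ρ := h.prof.pos ρ h.ρ0.le

lemma σ1 : σ ≤ 1 / 10000 := by
  have h1 := h.σδ
  have h2 := h.δ1
  have h3 := h.δ0
  nlinarith

lemma adj_le {p : E} (hp : ‖p - yb‖ ≤ ρ) (g : G) :
    ‖ContinuousLinearMap.adjoint (Ds p) g‖ ≤ σ * ‖g‖ := by
  refine (ContinuousLinearMap.le_opNorm _ _).trans ?_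
  rw [LinearIsometryEquiv.norm_map]
  exact mul_le_mul_of_nonneg_right (h.dn p hp) (norm_nonneg _)

lemma adj_sub_le {p p₂ : E} (hp : ‖p - yb‖ ≤ ρ) (hp₂ : ‖p₂ - yb‖ ≤ ρ) (g : G) :
    ‖ContinuousLinearMap.adjoint (Ds p) g - ContinuousLinearMap.adjoint (Ds p₂) g‖
      ≤ σ / ρ * ‖p - p₂‖ * ‖g‖ := by
  rw [← sub_apply, ← map_sub]
  refine (ContinuousLinearMap.le_opNorm _ _).trans ?_
  rw [LinearIsometryEquiv.norm_map]
  exact mul_le_mul_of_nonneg_right (h.dl p p₂ hp hp₂) (norm_nonneg _)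

lemma exists_eta {p : E} (hp : ‖p - yb‖ ≤ ρ / 2) : ∃ η, IsEta κ δ ρ s' Ds yb ηb Xb p η := by
  have hK := h.K0
  have hρ := h.ρ0
  have hσ := h.σ1
  have hσ0 := h.σ0
  have hδ := h.δ0
  have hδ1 := h.δ1
  have hp' : ‖p - yb‖ ≤ ρ := by linarith
  set f : E → E := fun η =>
    ηb + ((1 + 2 * δ) * κ ρ) • (p - yb) + ContinuousLinearMap.adjoint (Ds p) (Xb - s' η) with hf
  have hKρ : 0 < κ ρ * ρ := by positivity
  have hc0 : ‖(ηb : E) - ηb‖ ≤ 3 * κ ρ * ρ := by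
    rw [sub_self, norm_zero]; positivity
  have hmaps : MapsTo f (closedBall ηb (3 * κ ρ * ρ)) (closedBall ηb (3 * κ ρ * ρ)) := by
    intro η hη
    rw [mem_closedBall, dist_eq_norm] at hη ⊢
    have e : f η - ηb = ((1 + 2 * δ) * κ ρ) • (p - yb)
        + ContinuousLinearMap.adjoint (Ds p) (Xb - s' η) := by rw [hf]; simp only; abel
    rw [e]
    have h1 : ‖((1 + 2 * δ) * κ ρ) • (p - yb)‖ ≤ 102 / 100 * (κ ρ * ρ) / 2 := by
      rw [norm_smul, Real.norm_of_nonneg (by positivity)]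
      have : (1 + 2 * δ) * κ ρ * ‖p - yb‖ ≤ (1 + 2 * δ) * κ ρ * (ρ / 2) :=
        mul_le_mul_of_nonneg_left hp (by positivity)
      nlinarith
    have h2 := h.adj_le hp' (Xb - s' η)
    have h3 : ‖Xb - s' η‖ ≤ 4 * (κ ρ * ρ) := by
      have e2 : Xb - s' η = (Xb - s' ηb) + (s' ηb - s' η) := by abel
      rw [e2]
      have h4 := h.U
      have h5 := h.sl ηb η hc0 hη
      rw [norm_sub_rev ηb η] at h5
      have h6 := norm_add_le (Xb - s' ηb) (s' ηb - s' η)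
      have h7 : δ ^ 4 * κ ρ * ρ ≤ κ ρ * ρ := by
        have : δ ^ 4 ≤ 1 := pow_le_one₀ hδ.le (by linarith)
        nlinarith
      have h8 : σ * ‖η - ηb‖ ≤ 1 * (3 * κ ρ * ρ) :=
        mul_le_mul (by linarith) hη (norm_nonneg _) (by norm_num)
      linarith
    have h9 : σ * ‖Xb - s' η‖ ≤ 1 / 10000 * (4 * (κ ρ * ρ)) :=
      mul_le_mul hσ h3 (norm_nonneg _) (by norm_num)
    have h10 := norm_add_le (((1 + 2 * δ) * κ ρ) • (p - yb))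
      (ContinuousLinearMap.adjoint (Ds p) (Xb - s' η))
    nlinarith
  have hcon : ContractingWith (1 / 2) (hmaps.restrict f _ _) := by
    refine ⟨by
      rw [← NNReal.coe_lt_coe]; norm_num, ?_⟩
    apply LipschitzWith.of_dist_le_mul
    rintro ⟨η, hη⟩ ⟨η₂, hη₂⟩
    rw [mem_closedBall, dist_eq_norm] at hη hη₂
    rw [Subtype.dist_eq, Subtype.dist_eq, MapsTo.val_restrict_apply, MapsTo.val_restrict_apply,
      dist_eq_norm, dist_eq_norm]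
    simp only
    have e : f η - f η₂ = ContinuousLinearMap.adjoint (Ds p) (s' η₂ - s' η) := by
      have e0 : ContinuousLinearMap.adjoint (Ds p) (s' η₂ - s' η)
          = ContinuousLinearMap.adjoint (Ds p) (Xb - s' η)
            - ContinuousLinearMap.adjoint (Ds p) (Xb - s' η₂) := by
        rw [← map_sub]; congr 1; abel
      rw [e0, hf]
      simp only
      abel
    rw [e]
    have h1 := h.adj_le hp' (s' η₂ - s' η)
    have h2 := h.sl η₂ η hη₂ hη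
    rw [norm_sub_rev η₂ η] at h2
    have h3 : σ * ‖s' η₂ - s' η‖ ≤ 1 * (σ * ‖η - η₂‖) :=
      mul_le_mul (by linarith) h2 (norm_nonneg _) (by norm_num)
    have h4 : σ * ‖η - η₂‖ ≤ 1 / 2 * ‖η - η₂‖ :=
      mul_le_mul_of_nonneg_right (by linarith) (norm_nonneg _)
    push_cast
    linarith
  obtain ⟨η, hη, hfix, -⟩ := hcon.exists_fixedPoint' (s := closedBall ηb (3 * κ ρ * ρ))
    (isClosed_closedBall.isComplete) hmaps (x := ηb) (by simp; positivity) (edist_ne_top _ _)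
  refine ⟨η, ?_, hfix.symm⟩
  rwa [mem_closedBall, dist_eq_norm] at hη

/-- The size of `g = Xb - s'(η)`. -/
lemma g_le {p η : E} (hp : ‖p - yb‖ ≤ ρ / 2) (hη : IsEta κ δ ρ s' Ds yb ηb Xb p η) :
    ‖Xb - s' η‖ ≤ κ ρ * (101 / 100 * (δ ^ 4 * ρ + 103 / 100 * σ * ‖p - yb‖)) := by
  have hK := h.K0
  have hρ := h.ρ0
  have hσ := h.σ1
  have hσ0 := h.σ0
  have hδ := h.δ0
  have hδ1 := h.δ1
  have hp' : ‖p - yb‖ ≤ ρ := by linarith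
  have hc0 : ‖(ηb : E) - ηb‖ ≤ 3 * κ ρ * ρ := by
    rw [sub_self, norm_zero]; positivity
  have h1 : ‖Xb - s' η‖ ≤ δ ^ 4 * κ ρ * ρ + σ * ‖η - ηb‖ := by
    have e2 : Xb - s' η = (Xb - s' ηb) + (s' ηb - s' η) := by abel
    rw [e2]
    have h5 := h.sl ηb η hc0 hη.1
    rw [norm_sub_rev ηb η] at h5
    linarith [norm_add_le (Xb - s' ηb) (s' ηb - s' η), h.U]
  have h2 : ‖η - ηb‖ ≤ (1 + 2 * δ) * κ ρ * ‖p - yb‖ + σ * ‖Xb - s' η‖ := by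
    have e : η - ηb = ((1 + 2 * δ) * κ ρ) • (p - yb)
        + ContinuousLinearMap.adjoint (Ds p) (Xb - s' η) := by
      nth_rewrite 1 [hη.2]; abel
    rw [e]
    refine (norm_add_le _ _).trans (add_le_add ?_ (h.adj_le hp' _))
    rw [norm_smul, Real.norm_of_nonneg (by positivity)]
  set g := ‖Xb - s' η‖ with hg
  have hg0 : 0 ≤ g := norm_nonneg _
  set P := ‖p - yb‖ with hP
  have hP0 : 0 ≤ P := norm_nonneg _
  have h3 : g ≤ δ ^ 4 * κ ρ * ρ + σ * ((1 + 2 * δ) * κ ρ * P + σ * g) := by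
    linarith [mul_le_mul_of_nonneg_left h2 hσ0]
  have h4 : σ * (σ * g) ≤ 1 / 1000 * g := by
    have h5 : σ * g ≤ 1 / 10000 * g := mul_le_mul_of_nonneg_right hσ hg0
    have h6 : σ * (σ * g) ≤ 1 / 10000 * (1 / 10000 * g) := mul_le_mul hσ h5 (by positivity)
      (by norm_num)
    linarith
  have h7 : σ * ((1 + 2 * δ) * κ ρ * P) ≤ 102 / 100 * (σ * κ ρ * P) := by
    have : 0 ≤ σ * κ ρ * P := by positivity
    nlinarith
  have h8 : 999 / 1000 * g ≤ δ ^ 4 * κ ρ * ρ + 102 / 100 * (σ * κ ρ * P) := by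
    have e : σ * ((1 + 2 * δ) * κ ρ * P + σ * g) = σ * ((1 + 2 * δ) * κ ρ * P) + σ * (σ * g) := by
      ring
    linarith
  have h9 : 0 ≤ δ ^ 4 * κ ρ * ρ := by positivity
  have h10 : 0 ≤ σ * κ ρ * P := by positivity
  have e2 : κ ρ * (101 / 100 * (δ ^ 4 * ρ + 103 / 100 * σ * P))
      = 101 / 100 * (δ ^ 4 * κ ρ * ρ) + 101 / 100 * (103 / 100) * (σ * κ ρ * P) := by ring
  rw [e2]
  linarith

lemma g_le' {p η : E} (hp : ‖p - yb‖ ≤ ρ / 2) (hη : IsEta κ δ ρ s' Ds yb ηb Xb p η) :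
    ‖Xb - s' η‖ ≤ δ ^ 2 * κ ρ * ρ := by
  have h1 := h.g_le hp hη
  have hK := h.K0
  have hρ := h.ρ0
  have hσδ := h.σδ
  have hσ0 := h.σ0
  have hδ := h.δ0
  have hδ1 := h.δ1
  obtain ⟨p2, p3, p4, p6, p1⟩ := num_pow hδ hδ1
  refine h1.trans ?_
  have h2 : 101 / 100 * (δ ^ 4 * ρ + 103 / 100 * σ * ‖p - yb‖) ≤ δ ^ 2 * ρ := by
    have h3 : σ * ‖p - yb‖ ≤ δ ^ 2 * (ρ / 2) := mul_le_mul hσδ hp (norm_nonneg _) (by positivity)
    have h4 : δ ^ 4 * ρ ≤ δ ^ 2 / 10000 * ρ := mul_le_mul_of_nonneg_right p3 hρ.le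
    have h5 : 0 ≤ δ ^ 2 * ρ := by positivity
    linarith
  have h3 := mul_le_mul_of_nonneg_left h2 hK.le
  linarith

/-- The frequency is Lipschitz in the parameter. -/
lemma eta_lip {p p₂ η η₂ : E} (hp : ‖p - yb‖ ≤ ρ / 2) (hη : IsEta κ δ ρ s' Ds yb ηb Xb p η)
    (hp₂ : ‖p₂ - yb‖ ≤ ρ / 2) (hη₂ : IsEta κ δ ρ s' Ds yb ηb Xb p₂ η₂) :
    ‖η - η₂‖ ≤ 105 / 100 * κ ρ * ‖p - p₂‖ := by
  have hK := h.K0
  have hρ := h.ρ0
  have hσ := h.σ1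
  have hσ0 := h.σ0
  have hδ := h.δ0
  have hδ1 := h.δ1
  have hp' : ‖p - yb‖ ≤ ρ := by linarith
  have hp₂' : ‖p₂ - yb‖ ≤ ρ := by linarith
  have hg := h.g_le' hp hη
  have e : η - η₂ = ((1 + 2 * δ) * κ ρ) • (p - p₂)
      + (ContinuousLinearMap.adjoint (Ds p) (Xb - s' η)
        - ContinuousLinearMap.adjoint (Ds p₂) (Xb - s' η))
      + ContinuousLinearMap.adjoint (Ds p₂) (s' η₂ - s' η) := by
    have e0 : ContinuousLinearMap.adjoint (Ds p₂) (s' η₂ - s' η)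
        = ContinuousLinearMap.adjoint (Ds p₂) (Xb - s' η)
          - ContinuousLinearMap.adjoint (Ds p₂) (Xb - s' η₂) := by
      rw [← map_sub]; congr 1; abel
    have e1 : ((1 + 2 * δ) * κ ρ) • (p - p₂) = ((1 + 2 * δ) * κ ρ) • (p - yb)
        - ((1 + 2 * δ) * κ ρ) • (p₂ - yb) := by rw [← smul_sub]; congr 1; abel
    have e2 : η - η₂ = (ηb + ((1 + 2 * δ) * κ ρ) • (p - yb)
        + ContinuousLinearMap.adjoint (Ds p) (Xb - s' η)) - (ηb + ((1 + 2 * δ) * κ ρ) • (p₂ - yb)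
        + ContinuousLinearMap.adjoint (Ds p₂) (Xb - s' η₂)) := by
      rw [← hη.2, ← hη₂.2]
    rw [e2, e0, e1]
    abel
  have h1 : ‖((1 + 2 * δ) * κ ρ) • (p - p₂)‖ ≤ 102 / 100 * (κ ρ * ‖p - p₂‖) := by
    rw [norm_smul, Real.norm_of_nonneg (by positivity)]
    have : 0 ≤ κ ρ * ‖p - p₂‖ := by positivity
    nlinarith
  have h2 := h.adj_sub_le hp' hp₂' (Xb - s' η)
  have h3 : σ / ρ * ‖p - p₂‖ * ‖Xb - s' η‖ ≤ 1 / 1000 * (κ ρ * ‖p - p₂‖) := by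
    have h4 : σ / ρ * ‖p - p₂‖ * ‖Xb - s' η‖ ≤ σ / ρ * ‖p - p₂‖ * (δ ^ 2 * κ ρ * ρ) :=
      mul_le_mul_of_nonneg_left hg (by positivity)
    have e3 : σ / ρ * ‖p - p₂‖ * (δ ^ 2 * κ ρ * ρ) = σ * δ ^ 2 * (κ ρ * ‖p - p₂‖) := by
      field_simp
    rw [e3] at h4
    have h5 : σ * δ ^ 2 ≤ 1 / 1000 := by
      have : σ * δ ^ 2 ≤ 1 / 10000 * 1 := mul_le_mul hσ (pow_le_one₀ hδ.le (by linarith))
        (by positivity) (by norm_num)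
      linarith
    exact h4.trans (mul_le_mul_of_nonneg_right h5 (by positivity))
  have h4 := h.adj_le hp₂' (s' η₂ - s' η)
  have h5 := h.sl η₂ η hη₂.1 hη.1
  rw [norm_sub_rev η₂ η] at h5
  have h6 : σ * ‖s' η₂ - s' η‖ ≤ 1 / 1000 * ‖η - η₂‖ := by
    have h7 : σ * ‖s' η₂ - s' η‖ ≤ 1 / 10000 * (σ * ‖η - η₂‖) :=
      mul_le_mul hσ h5 (norm_nonneg _) (by norm_num)
    have h8 : σ * ‖η - η₂‖ ≤ 1 / 10000 * ‖η - η₂‖ :=
      mul_le_mul_of_nonneg_right hσ (norm_nonneg _)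
    linarith [norm_nonneg (η - η₂)]
  have h7 : ‖η - η₂‖ ≤ 102 / 100 * (κ ρ * ‖p - p₂‖) + 1 / 1000 * (κ ρ * ‖p - p₂‖)
      + 1 / 1000 * ‖η - η₂‖ := by
    calc ‖η - η₂‖ = _ := congrArg _ e
      _ ≤ _ := norm_add₃_le
      _ ≤ _ := by linarith
  have h8 : 0 ≤ κ ρ * ‖p - p₂‖ := by positivity
  linarith

end AData

end Pool.Agent.H60.FT
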