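import Pool.Agent.H60.FT.AStep1

/-!
The A-step (project FT, MP_6e521b_an): the weights.
-/

open Set Metric
open scoped InnerProductSpace

set_option linter.unusedSectionVars false

namespace Pool.Agent.H60.FT

variable {E G : Type*} [NormedAddCommGroup E] [InnerProductSpace ℝ E] [CompleteSpace E]
  [NormedAddCommGroup G] [InnerProductSpace ℝ G] [CompleteSpace G]

/-- The linear part. -/
noncomputable def lin (yb ηb : E) (xb Xb : G) (y : E) (x : G) : ℝ := ⟪y - yb, ηb⟫_ℝ + ⟪x - xb, Xb⟫_ℝ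

/-- The distance to the point `(p, s p)`. -/
noncomputable def TT (s : E → G) (p y : E) (x : G) : ℝ := √(‖y - p‖ ^ 2 + ‖x - s p‖ ^ 2)

/-- The weight of the parameter `p` with frequency `η`. -/
noncomputable def WW (κ : ℝ → ℝ) (δ ρ : ℝ) (s s' : E → G) (Ds : E → E →L[ℝ] G)
    (yb ηb : E) (xb Xb : G) (η p y : E) (x : G) : ℝ :=
  lin yb ηb xb Xb y x + (1 + 2 * δ) * κ ρ / 2 * ‖y - yb‖ ^ 2
    - (1 + 2 * δ) * κ ρ / 2 * ‖y - p‖ ^ 2 + (1 + 4 * δ) * FF κ (TT s p y x)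
    - ⟪x - s p - Ds p (y - p), Xb - s' η⟫_ℝ

variable {κ : ℝ → ℝ} {δ σ ρ : ℝ} {s s' : E → G} {Ds : E → E →L[ℝ] G}
  {yb ηb : E} {xb Xb : G}

lemma TT_nonneg {p y : E} {x : G} : 0 ≤ TT s p y x := Real.sqrt_nonneg _

lemma TT_sq {p y : E} {x : G} : TT s p y x ^ 2 = ‖y - p‖ ^ 2 + ‖x - s p‖ ^ 2 :=
  Real.sq_sqrt (by positivity)

/-- The weight has the frequency `(η, s' η)` at the point `(p, s p)`. -/
lemma WW_sub {p η : E} (hη : IsEta κ δ ρ s' Ds yb ηb Xb p η) (y y₂ : E) (x x₂ : G) :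
    WW κ δ ρ s s' Ds yb ηb xb Xb η p y x - WW κ δ ρ s s' Ds yb ηb xb Xb η p y₂ x₂
      = ⟪y - y₂, η⟫_ℝ + ⟪x - x₂, s' η⟫_ℝ
        + (1 + 4 * δ) * (FF κ (TT s p y x) - FF κ (TT s p y₂ x₂)) := by
  have h1 : ⟪y - y₂, η⟫_ℝ = ⟪y - y₂, ηb⟫_ℝ + (1 + 2 * δ) * κ ρ * ⟪y - y₂, p - yb⟫_ℝ
      + ⟪Ds p (y - y₂), Xb - s' η⟫_ℝ := by
    nth_rewrite 1 [hη.2]
    rw [inner_add_right, inner_add_right, inner_smul_right, ContinuousLinearMap.adjoint_inner_right]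
  have h2 : ‖y - yb‖ ^ 2 - ‖y - p‖ ^ 2 - (‖y₂ - yb‖ ^ 2 - ‖y₂ - p‖ ^ 2)
      = 2 * ⟪y - y₂, p - yb⟫_ℝ := by
    have e1 : ∀ v : E, ‖v - yb‖ ^ 2 - ‖v - p‖ ^ 2 = 2 * ⟪v, p - yb⟫_ℝ + ‖yb‖ ^ 2 - ‖p‖ ^ 2 := by
      intro v
      rw [norm_sub_sq_real, norm_sub_sq_real, inner_sub_right]
      ring
    rw [e1, e1, inner_sub_left]
    ring
  have h3 : ⟪x - s p - Ds p (y - p), Xb - s' η⟫_ℝ - ⟪x₂ - s p - Ds p (y₂ - p), Xb - s' η⟫_ℝ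
      = ⟪x - x₂, Xb⟫_ℝ - ⟪x - x₂, s' η⟫_ℝ - ⟪Ds p (y - y₂), Xb - s' η⟫_ℝ := by
    rw [← inner_sub_left]
    have e1 : x - s p - Ds p (y - p) - (x₂ - s p - Ds p (y₂ - p)) = (x - x₂) - Ds p (y - y₂) := by
      have : Ds p (y - y₂) = Ds p (y - p) - Ds p (y₂ - p) := by
        rw [← map_sub]; congr 1; abel
      rw [this]; abel
    rw [e1, inner_sub_left, inner_sub_right (x - x₂)]
  have h4 : ⟪y - yb, ηb⟫_ℝ - ⟪y₂ - yb, ηb⟫_ℝ = ⟪y - y₂, ηb⟫_ℝ := by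
    rw [← inner_sub_left]; congr 1; abel
  have h5 : ⟪x - xb, Xb⟫_ℝ - ⟪x₂ - xb, Xb⟫_ℝ = ⟪x - x₂, Xb⟫_ℝ := by
    rw [← inner_sub_left]; congr 1; abel
  unfold WW lin
  rw [h1]
  linear_combination h4 + h5 + (1 + 2 * δ) * κ ρ / 2 * h2 - h3

lemma three_pt {V : Type*} [NormedAddCommGroup V] [InnerProductSpace ℝ V] (a b c : V) :
    ‖a - c‖ ^ 2 - ‖b - c‖ ^ 2 = ‖a - b‖ ^ 2 + 2 * ⟪a - b, b - c⟫_ℝ := by
  have : a - c = (a - b) + (b - c) := by abel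
  rw [this, norm_add_sq_real]
  ring

/-- The touching quadratic at a point. -/
lemma WW_touch (hκ : Prof κ) (hδ : 0 < δ) {p η : E} (hη : IsEta κ δ ρ s' Ds yb ηb Xb p η)
    (y y₂ : E) (x x₂ : G) :
    WW κ δ ρ s s' Ds yb ηb xb Xb η p y x - WW κ δ ρ s s' Ds yb ηb xb Xb η p y₂ x₂
      ≤ ⟪y - y₂, η + ((1 + 4 * δ) * κ (TT s p y₂ x₂)) • (y₂ - p)⟫_ℝ
        + ⟪x - x₂, s' η + ((1 + 4 * δ) * κ (TT s p y₂ x₂)) • (x₂ - s p)⟫_ℝ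
        + (1 + 4 * δ) * κ (TT s p y₂ x₂) / 2 * (‖y - y₂‖ ^ 2 + ‖x - x₂‖ ^ 2) := by
  rw [WW_sub hη]
  have h1 := FF_le hκ (R := TT s p y₂ x₂) (T := TT s p y x) TT_nonneg TT_nonneg
  rw [TT_sq, TT_sq] at h1
  have h3 := three_pt y y₂ p
  have h4 := three_pt x x₂ (s p)
  rw [inner_add_right, inner_add_right, inner_smul_right, inner_smul_right]
  have h5 := mul_le_mul_of_nonneg_left h1 (show 0 ≤ 1 + 4 * δ by linarith)
  set c := κ (TT s p y₂ x₂)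
  have h6 : ‖y - p‖ ^ 2 + ‖x - s p‖ ^ 2 - (‖y₂ - p‖ ^ 2 + ‖x₂ - s p‖ ^ 2)
      = ‖y - y₂‖ ^ 2 + ‖x - x₂‖ ^ 2 + 2 * (⟪y - y₂, y₂ - p⟫_ℝ + ⟪x - x₂, x₂ - s p⟫_ℝ) := by
    linarith
  rw [h6] at h5
  linarith

namespace AData

variable (h : AData κ δ σ ρ s s' Ds yb ηb xb Xb)

include h

/-- The lower bound of the weights. -/
lemma low {p η : E} (hp : ‖p - yb‖ ≤ ρ / 2) (hη : IsEta κ δ ρ s' Ds yb ηb Xb p η)
    {y : E} {x : G} (hz : ‖y - yb‖ ^ 2 + ‖x - xb‖ ^ 2 ≤ (ρ / 4) ^ 2) :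
    lin yb ηb xb Xb y x + (1 + δ) * κ ρ / 2 * (‖y - yb‖ ^ 2 + ‖x - xb‖ ^ 2)
      + κ ρ * (δ / 4 * (‖y - yb‖ ^ 2 + ‖y - p‖ ^ 2 + ‖x - s p‖ ^ 2) - 5 * δ ^ 7 * ρ ^ 2)
      ≤ WW κ δ ρ s s' Ds yb ηb xb Xb η p y x := by
  have hK := h.K0
  have hρ := h.ρ0
  have hσ := h.σ1
  have hσ0 := h.σ0
  have hδ := h.δ0
  have hδ1 := h.δ1
  have hp' : ‖p - yb‖ ≤ ρ := by linarith
  have hA : ‖y - yb‖ ≤ ρ / 4 := by
    apply abs_le_of_sq_le_sq' _ (by positivity) |>.2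
    linarith [sq_nonneg ‖x - xb‖]
  have hB : ‖x - xb‖ ≤ ρ / 4 := by
    apply abs_le_of_sq_le_sq' _ (by positivity) |>.2
    linarith [sq_nonneg ‖y - yb‖]
  have hyb : ‖yb - yb‖ ≤ ρ := by simp [hρ.le]
  -- triangle inequalities
  have hPA : ‖p - yb‖ ≤ ‖y - yb‖ + ‖y - p‖ := by
    have e : p - yb = (y - yb) - (y - p) := by abel
    rw [e]; exact norm_sub_le _ _
  have hsp : ‖s p - xb‖ ≤ δ ^ 4 * ρ + σ * ‖p - yb‖ := by
    have e : s p - xb = (s p - s yb) - (xb - s yb) := by abel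
    rw [e]
    linarith [norm_sub_le (s p - s yb) (xb - s yb), h.lip p yb hp' hyb, h.u]
  have hBT : ‖x - xb‖ ≤ ‖x - s p‖ + (δ ^ 4 * ρ + σ * ‖p - yb‖) := by
    have e : x - xb = (x - s p) + (s p - xb) := by abel
    rw [e]
    linarith [norm_add_le (x - s p) (s p - xb)]
  obtain ⟨p2, p3, p4, p6, p1⟩ := num_pow hδ hδ1
  -- the distance is at most `ρ`
  have hT : TT s p y x ≤ ρ := by
    have h1 : TT s p y x ^ 2 ≤ ρ ^ 2 := by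
      rw [TT_sq]
      have h2 : ‖y - p‖ ≤ 3 / 4 * ρ := by
        have e : y - p = (y - yb) - (p - yb) := by abel
        rw [e]
        linarith [norm_sub_le (y - yb) (p - yb)]
      have h3 : ‖x - s p‖ ≤ 1 / 3 * ρ := by
        have e : x - s p = (x - xb) - (s p - xb) := by abel
        rw [e]
        have h4 : σ * ‖p - yb‖ ≤ 1 / 10000 * (ρ / 2) := mul_le_mul hσ hp (norm_nonneg _)
          (by norm_num)
        have h5 : δ ^ 4 * ρ ≤ 1 / 10000 * ρ := by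
          apply mul_le_mul_of_nonneg_right _ hρ.le
          have : 0 ≤ δ ^ 2 := by positivity
          linarith
        linarith [norm_sub_le (x - xb) (s p - xb)]
      have h6 := pow_le_pow_left₀ (norm_nonneg _) h2 2
      have h7 := pow_le_pow_left₀ (norm_nonneg _) h3 2
      nlinarith [sq_nonneg ρ]
    exact (abs_le_of_sq_le_sq' h1 hρ.le).2
  have hF := FF_ge h.prof (TT_nonneg (s := s) (p := p) (y := y) (x := x)) hT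
  rw [TT_sq] at hF
  -- the remainder
  have hg := h.g_le hp hη
  have hrem : ⟪x - s p - Ds p (y - p), Xb - s' η⟫_ℝ
      ≤ (‖x - s p‖ + σ * ‖y - p‖) * ‖Xb - s' η‖ := by
    refine (real_inner_le_norm _ _).trans (mul_le_mul_of_nonneg_right ?_ (norm_nonneg _))
    refine (norm_sub_le _ _).trans (add_le_add le_rfl ?_)
    exact (ContinuousLinearMap.le_opNorm _ _).trans
      (mul_le_mul_of_nonneg_right (h.dn p hp') (norm_nonneg _))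
  have hnum := num_low (A := ‖y - yb‖) (D := ‖y - p‖) (T := ‖x - s p‖) (B := ‖x - xb‖)
    (P := ‖p - yb‖) (g := ‖Xb - s' η‖ / κ ρ) (ρ := ρ) (δ := δ) (σ := σ)
    (norm_nonneg _) (norm_nonneg _) (norm_nonneg _) (norm_nonneg _) (norm_nonneg _)
    (by positivity) hρ hδ hδ1 h.σδ hPA hBT (by rw [div_le_iff₀ hK]; linarith)
  have hnum2 := mul_le_mul_of_nonneg_left hnum hK.le
  have e1 : κ ρ * ((δ * ‖y - yb‖ ^ 2 + 2 * δ * ‖y - p‖ ^ 2 + (1 + 4 * δ) * ‖x - s p‖ ^ 2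
      - (1 + δ) * ‖x - xb‖ ^ 2) / 2 - (‖x - s p‖ + σ * ‖y - p‖) * (‖Xb - s' η‖ / κ ρ))
      = κ ρ * (δ * ‖y - yb‖ ^ 2 + 2 * δ * ‖y - p‖ ^ 2 + (1 + 4 * δ) * ‖x - s p‖ ^ 2
      - (1 + δ) * ‖x - xb‖ ^ 2) / 2 - (‖x - s p‖ + σ * ‖y - p‖) * ‖Xb - s' η‖ := by
    field_simp
  rw [e1] at hnum2
  have hF2 := mul_le_mul_of_nonneg_left hF (show 0 ≤ 1 + 4 * δ by linarith)
  unfold WW
  nlinarith [hnum2, hF2, hrem]

end AData

end Pool.Agent.H60.FT
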