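import Pool.Agent.H60.FT.AStep2

/-!
The A-step (project FT, MP_6e521b_an): the maximum.
-/

open Set Metric
open scoped InnerProductSpace

set_option linter.unusedSectionVars false

namespace Pool.Agent.H60.FT

variable {E G : Type*} [NormedAddCommGroup E] [InnerProductSpace ℝ E] [ProperSpace E]
  [NormedAddCommGroup G] [InnerProductSpace ℝ G] [ProperSpace G]

variable {κ : ℝ → ℝ} {δ σ ρ : ℝ} {s s' : E → G} {Ds : E → E →L[ℝ] G}
  {yb ηb : E} {xb Xb : G}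

namespace AData

variable (h : AData κ δ σ ρ s s' Ds yb ηb xb Xb)

include h

lemma eta_unique {p η η₂ : E} (hp : ‖p - yb‖ ≤ ρ / 2) (hη : IsEta κ δ ρ s' Ds yb ηb Xb p η)
    (hη₂ : IsEta κ δ ρ s' Ds yb ηb Xb p η₂) : η = η₂ := by
  have h1 := h.eta_lip hp hη hp hη₂
  rw [sub_self, norm_zero, mul_zero] at h1
  exact sub_eq_zero.1 (norm_le_zero_iff.1 h1)

lemma contOn_s : ContinuousOn s {p | ‖p - yb‖ ≤ ρ / 2} := by
  have hρ := h.ρ0
  have hL : LipschitzOnWith (Real.toNNReal σ) s {p | ‖p - yb‖ ≤ ρ / 2} := by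
    apply LipschitzOnWith.of_dist_le_mul
    intro p hp p₂ hp₂
    have hp1 : ‖p - yb‖ ≤ ρ / 2 := hp
    have hp2 : ‖p₂ - yb‖ ≤ ρ / 2 := hp₂
    rw [dist_eq_norm, dist_eq_norm, Real.coe_toNNReal _ h.σ0]
    exact h.lip p p₂ (by linarith) (by linarith)
  exact hL.continuousOn

lemma contOn_Ds : ContinuousOn Ds {p | ‖p - yb‖ ≤ ρ / 2} := by
  have hρ := h.ρ0
  have h0 : 0 ≤ σ / ρ := div_nonneg h.σ0 hρ.le
  have hL : LipschitzOnWith (Real.toNNReal (σ / ρ)) Ds {p | ‖p - yb‖ ≤ ρ / 2} := by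
    apply LipschitzOnWith.of_dist_le_mul
    intro p hp p₂ hp₂
    have hp1 : ‖p - yb‖ ≤ ρ / 2 := hp
    have hp2 : ‖p₂ - yb‖ ≤ ρ / 2 := hp₂
    rw [dist_eq_norm, dist_eq_norm, Real.coe_toNNReal _ h0]
    exact h.dl p p₂ (by linarith) (by linarith)
  exact hL.continuousOn

lemma contOn_eta {eta : E → E} (heta : ∀ p, ‖p - yb‖ ≤ ρ / 2 →
    IsEta κ δ ρ s' Ds yb ηb Xb p (eta p)) : ContinuousOn eta {p | ‖p - yb‖ ≤ ρ / 2} := by
  have hρ := h.ρ0
  have hK := h.K0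
  have h0 : 0 ≤ 105 / 100 * κ ρ := by positivity
  have hL : LipschitzOnWith (Real.toNNReal (105 / 100 * κ ρ)) eta {p | ‖p - yb‖ ≤ ρ / 2} := by
    apply LipschitzOnWith.of_dist_le_mul
    intro p hp p₂ hp₂
    rw [dist_eq_norm, dist_eq_norm, Real.coe_toNNReal _ h0]
    exact h.eta_lip hp (heta p hp) hp₂ (heta p₂ hp₂)
  exact hL.continuousOn

lemma contOn_s' {eta : E → E} (heta : ∀ p, ‖p - yb‖ ≤ ρ / 2 →
    IsEta κ δ ρ s' Ds yb ηb Xb p (eta p)) :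
    ContinuousOn (fun p => s' (eta p)) {p | ‖p - yb‖ ≤ ρ / 2} := by
  have hρ := h.ρ0
  have hK := h.K0
  have h0 : 0 ≤ σ * (105 / 100 * κ ρ) := mul_nonneg h.σ0 (by positivity)
  have hL : LipschitzOnWith (Real.toNNReal (σ * (105 / 100 * κ ρ))) (fun p => s' (eta p))
      {p | ‖p - yb‖ ≤ ρ / 2} := by
    apply LipschitzOnWith.of_dist_le_mul
    intro p hp p₂ hp₂
    rw [dist_eq_norm, dist_eq_norm, Real.coe_toNNReal _ h0]
    have h1 := h.eta_lip hp (heta p hp) hp₂ (heta p₂ hp₂)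
    have h2 := h.sl _ _ (heta p hp).1 (heta p₂ hp₂).1
    have h3 := mul_le_mul_of_nonneg_left h1 h.σ0
    linarith
  exact hL.continuousOn

/-- The maximum of `g exp(-W)` over the point and the parameter. -/
lemma exists_max {g : E → G → ℝ} (hg : Continuous (fun z : E × G => g z.1 z.2)) :
    ∃ (p y η : E) (x : G), ‖p - yb‖ ≤ ρ / 2 ∧ ‖y - yb‖ ^ 2 + ‖x - xb‖ ^ 2 ≤ (ρ / 4) ^ 2 ∧
      IsEta κ δ ρ s' Ds yb ηb Xb p η ∧
      ∀ (p₂ y₂ η₂ : E) (x₂ : G), ‖p₂ - yb‖ ≤ ρ / 2 →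
        ‖y₂ - yb‖ ^ 2 + ‖x₂ - xb‖ ^ 2 ≤ (ρ / 4) ^ 2 → IsEta κ δ ρ s' Ds yb ηb Xb p₂ η₂ →
        g y₂ x₂ * Real.exp (-WW κ δ ρ s s' Ds yb ηb xb Xb η₂ p₂ y₂ x₂)
          ≤ g y x * Real.exp (-WW κ δ ρ s s' Ds yb ηb xb Xb η p y x) := by
  have hρ := h.ρ0
  have hex : ∀ p, ∃ η, ‖p - yb‖ ≤ ρ / 2 → IsEta κ δ ρ s' Ds yb ηb Xb p η := by
    intro p
    by_cases hp : ‖p - yb‖ ≤ ρ / 2
    · obtain ⟨η, hη⟩ := h.exists_eta hp
      exact ⟨η, fun _ => hη⟩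
    · exact ⟨0, fun h => absurd h hp⟩
  choose eta heta using hex
  set S : Set ((E × G) × E) := {q | ‖q.1.1 - yb‖ ^ 2 + ‖q.1.2 - xb‖ ^ 2 ≤ (ρ / 4) ^ 2 ∧
    ‖q.2 - yb‖ ≤ ρ / 2} with hS
  have hScl : IsClosed S := by
    apply IsClosed.inter
    · exact isClosed_le (f := fun q : (E × G) × E => ‖q.1.1 - yb‖ ^ 2 + ‖q.1.2 - xb‖ ^ 2)
        (g := fun _ => (ρ / 4) ^ 2) (by fun_prop) (by fun_prop)
    · exact isClosed_le (f := fun q : (E × G) × E => ‖q.2 - yb‖) (g := fun _ => ρ / 2)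
        (by fun_prop) (by fun_prop)
  have hSsub : S ⊆ (closedBall yb ρ ×ˢ closedBall xb ρ) ×ˢ closedBall yb ρ := by
    rintro ⟨⟨y, x⟩, p⟩ ⟨h1, h2⟩
    simp only at h1 h2
    simp only [mem_prod, mem_closedBall, dist_eq_norm]
    have hA : ‖y - yb‖ ≤ ρ / 4 := by
      apply abs_le_of_sq_le_sq' _ (by positivity) |>.2
      linarith [sq_nonneg ‖x - xb‖]
    have hB : ‖x - xb‖ ≤ ρ / 4 := by
      apply abs_le_of_sq_le_sq' _ (by positivity) |>.2
      linarith [sq_nonneg ‖y - yb‖]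
    exact ⟨⟨by linarith, by linarith⟩, by linarith⟩
  have hSc : IsCompact S :=
    (((isCompact_closedBall yb ρ).prod (isCompact_closedBall xb ρ)).prod
      (isCompact_closedBall yb ρ)).of_isClosed_subset hScl hSsub
  have hSne : S.Nonempty := by
    refine ⟨((yb, xb), yb), ?_, ?_⟩
    · simp only [sub_self, norm_zero]; nlinarith
    · simp only [sub_self, norm_zero]; linarith
  have hsnd : MapsTo (fun q : (E × G) × E => q.2) S {p | ‖p - yb‖ ≤ ρ / 2} := fun q hq => hq.2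
  have c1 : ContinuousOn (fun q : (E × G) × E => s q.2) S :=
    h.contOn_s.comp continuous_snd.continuousOn hsnd
  have c2 : ContinuousOn (fun q : (E × G) × E => Ds q.2) S :=
    h.contOn_Ds.comp continuous_snd.continuousOn hsnd
  have c3 : ContinuousOn (fun q : (E × G) × E => s' (eta q.2)) S :=
    (h.contOn_s' heta).comp continuous_snd.continuousOn hsnd
  have c4 : ContinuousOn (fun q : (E × G) × E => Ds q.2 (q.1.1 - q.2)) S :=
    c2.clm_apply (by fun_prop)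
  have c5 : ContinuousOn (fun q : (E × G) × E => TT s q.2 q.1.1 q.1.2) S := by
    unfold TT
    apply ContinuousOn.sqrt
    exact ContinuousOn.add (by fun_prop)
      (((by fun_prop : ContinuousOn (fun q : (E × G) × E => q.1.2) S).sub c1).norm.pow 2)
  have c6 : ContinuousOn (fun q : (E × G) × E => FF κ (TT s q.2 q.1.1 q.1.2)) S :=
    (FF_cont h.prof).comp c5 (fun q _ => TT_nonneg)
  have c7 : ContinuousOn (fun q : (E × G) × E =>
      ⟪q.1.2 - s q.2 - Ds q.2 (q.1.1 - q.2), Xb - s' (eta q.2)⟫_ℝ) S :=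
    ContinuousOn.inner
      (((by fun_prop : ContinuousOn (fun q : (E × G) × E => q.1.2) S).sub c1).sub c4)
      (continuousOn_const.sub c3)
  have c8 : ContinuousOn (fun q : (E × G) × E =>
      WW κ δ ρ s s' Ds yb ηb xb Xb (eta q.2) q.2 q.1.1 q.1.2) S := by
    unfold WW lin
    exact ContinuousOn.sub (ContinuousOn.add (by fun_prop) (continuousOn_const.mul c6)) c7
  have c9 : ContinuousOn (fun q : (E × G) × E => g q.1.1 q.1.2 *
      Real.exp (-WW κ δ ρ s s' Ds yb ηb xb Xb (eta q.2) q.2 q.1.1 q.1.2)) S := by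
    have : Continuous (fun q : (E × G) × E => g q.1.1 q.1.2) := hg.comp continuous_fst
    exact this.continuousOn.mul c8.neg.rexp
  obtain ⟨⟨⟨y, x⟩, p⟩, hmem, hmax⟩ := hSc.exists_isMaxOn hSne c9
  refine ⟨p, y, eta p, x, hmem.2, hmem.1, heta p hmem.2, ?_⟩
  intro p₂ y₂ η₂ x₂ hp₂ hz₂ hη₂
  have e : η₂ = eta p₂ := h.eta_unique hp₂ hη₂ (heta p₂ hp₂)
  subst e
  have hm : ((y₂, x₂), p₂) ∈ S := ⟨hz₂, hp₂⟩
  exact hmax hm

end AData

end Pool.Agent.H60.FT
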