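import Pool.Agent.H60.FT.AStep3

/-!
The A-step (project FT, MP_6e521b_an): the new contact.
-/

open Set Metric
open scoped InnerProductSpace

set_option linter.unusedSectionVars false

namespace Pool.Agent.H60.FT

variable {E G : Type*} [NormedAddCommGroup E] [InnerProductSpace ℝ E] [ProperSpace E]
  [NormedAddCommGroup G] [InnerProductSpace ℝ G] [ProperSpace G]

variable {κ : ℝ → ℝ} {δ σ ρ : ℝ} {s s' : E → G} {Ds : E → E →L[ℝ] G}
  {yb ηb : E} {xb Xb : G}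

/-- Comparison of the profile at two close radii. -/
lemma prof_cmp (hκ : Prof κ) (hδ : 0 < δ) (hδ1 : δ ≤ 1 / 100) {r T : ℝ} (hr : 0 ≤ r)
    (hT : 0 ≤ T) (h1 : T ≤ (1 + δ) * r) (h2 : (1 - δ) * r ≤ T) :
    κ T ≤ (1 + 2 * δ) * κ r ∧ κ r ≤ (1 + δ) * κ T := by
  have hκr := hκ.pos r hr
  have hκT := hκ.pos T hT
  rcases hr.eq_or_lt with h0 | h0
  · have : T = r := by rw [← h0] at h1 h2 ⊢; linarith
    rw [this]
    constructor <;> nlinarith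
  · constructor
    · rcases le_total r T with h3 | h3
      · have := hκ.anti r T hr h3
        nlinarith
      · have h4 := hκ.mono T r hT h3
        have h5 : (1 - δ) * r * κ T ≤ r * κ r :=
          (mul_le_mul_of_nonneg_right h2 hκT.le).trans h4
        have h6 : (1 - δ) * κ T ≤ κ r := by
          have : r * ((1 - δ) * κ T) ≤ r * κ r := by linarith
          exact le_of_mul_le_mul_left this h0
        have h7 : κ T = (1 + 2 * δ) * ((1 - δ) * κ T) - (δ - 2 * δ ^ 2) * κ T := by ring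
        have h8 : 0 ≤ (δ - 2 * δ ^ 2) * κ T := mul_nonneg (by nlinarith) hκT.le
        have h9 := mul_le_mul_of_nonneg_left h6 (show 0 ≤ 1 + 2 * δ by linarith)
        linarith
    · rcases le_total T r with h3 | h3
      · have := hκ.anti T r hT h3
        nlinarith
      · have h4 := hκ.mono r T hr h3
        have h5 : r * κ r ≤ (1 + δ) * r * κ T :=
          h4.trans (mul_le_mul_of_nonneg_right h1 hκT.le)
        have : r * κ r ≤ r * ((1 + δ) * κ T) := by linarith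
        exact le_of_mul_le_mul_left this h0

lemma num_close {A D T ρ δ : ℝ} (hρ : 0 < ρ) (hδ : 0 < δ) (hδ1 : δ ≤ 1 / 100)
    (hA : 0 ≤ A) (hD : 0 ≤ D) (hT : 0 ≤ T)
    (h : δ / 4 * (A ^ 2 + D ^ 2 + T ^ 2) - 5 * δ ^ 7 * ρ ^ 2 ≤ 2 * δ ^ 4 * ρ ^ 2) :
    A ≤ 3 / 10 * δ * ρ ∧ D ≤ 3 / 10 * δ * ρ ∧ T ≤ 3 / 10 * δ * ρ := by
  obtain ⟨p2, p3, p4, p6, p1⟩ := num_pow hδ hδ1
  have h1 : A ^ 2 + D ^ 2 + T ^ 2 ≤ (3 / 10 * δ * ρ) ^ 2 := by
    have e : δ / 4 * (A ^ 2 + D ^ 2 + T ^ 2) ≤ δ / 4 * (3 / 10 * δ * ρ) ^ 2 := by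
      have h2 : 2 * δ ^ 4 * ρ ^ 2 + 5 * δ ^ 7 * ρ ^ 2 ≤ δ / 4 * (3 / 10 * δ * ρ) ^ 2 := by
        have e1 : δ / 4 * (3 / 10 * δ * ρ) ^ 2 = 9 / 400 * (δ ^ 3 * ρ ^ 2) := by ring
        have h3 : 2 * δ ^ 4 * ρ ^ 2 ≤ 2 / 100 * (δ ^ 3 * ρ ^ 2) := by
          have : 0 ≤ δ ^ 3 * ρ ^ 2 := by positivity
          have e2 : 2 * δ ^ 4 * ρ ^ 2 = 2 * (δ * (δ ^ 3 * ρ ^ 2)) := by ring
          rw [e2]
          have := mul_le_mul_of_nonneg_right hδ1 this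
          linarith
        have h4 : 5 * δ ^ 7 * ρ ^ 2 ≤ 5 / 10000 * (δ ^ 3 * ρ ^ 2) := by
          have h5 : 0 ≤ δ ^ 3 * ρ ^ 2 := by positivity
          have e2 : 5 * δ ^ 7 * ρ ^ 2 = 5 * (δ ^ 4 * (δ ^ 3 * ρ ^ 2)) := by ring
          rw [e2]
          have h6 : δ ^ 4 ≤ 1 / 10000 := by
            have : 0 ≤ δ ^ 2 := by positivity
            linarith
          have := mul_le_mul_of_nonneg_right h6 h5
          linarith
        have h5 : 0 ≤ δ ^ 3 * ρ ^ 2 := by positivity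
        linarith
      linarith
    exact le_of_mul_le_mul_left e (by positivity)
  have h0 : 0 ≤ 3 / 10 * δ * ρ := by positivity
  refine ⟨?_, ?_, ?_⟩
  · exact (abs_le_of_sq_le_sq' (by nlinarith [sq_nonneg D, sq_nonneg T]) h0).2
  · exact (abs_le_of_sq_le_sq' (by nlinarith [sq_nonneg A, sq_nonneg T]) h0).2
  · exact (abs_le_of_sq_le_sq' (by nlinarith [sq_nonneg D, sq_nonneg A]) h0).2

namespace AData

variable (h : AData κ δ σ ρ s s' Ds yb ηb xb Xb)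

include h

/-- The weight of the centre at the contact. -/
lemma WW_b {η : E} (hη : IsEta κ δ ρ s' Ds yb ηb Xb yb η) :
    WW κ δ ρ s s' Ds yb ηb xb Xb η yb yb xb ≤ κ ρ * (2 * δ ^ 4 * ρ ^ 2) := by
  have hK := h.K0
  have hρ := h.ρ0
  have hδ := h.δ0
  have hδ1 := h.δ1
  obtain ⟨p2, p3, p4, p6, p1⟩ := num_pow hδ hδ1
  have hyb : ‖yb - yb‖ ≤ ρ / 2 := by rw [sub_self, norm_zero]; positivity
  have hTT : TT s yb yb xb = ‖xb - s yb‖ := by
    unfold TT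
    rw [sub_self, norm_zero]
    simp
  set t := ‖xb - s yb‖ with ht
  have ht0 : 0 ≤ t := norm_nonneg _
  have htu : t ≤ δ ^ 4 * ρ := h.u
  have hδ4 : δ ^ 4 ≤ 1 := pow_le_one₀ hδ.le (by linarith)
  have htρ : t ≤ ρ := htu.trans (by nlinarith)
  have h1 : FF κ t ≤ δ ^ 4 * (κ ρ * ρ ^ 2) := by
    refine (FF_le' h.prof ht0).trans ?_
    have h2 := h.prof.mono t ρ ht0 htρ
    calc t * (t * κ t) ≤ (δ ^ 4 * ρ) * (ρ * κ ρ) :=
          mul_le_mul htu h2 (mul_nonneg ht0 (h.prof.pos t ht0).le) (by positivity)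
      _ = _ := by ring
  have h2 : -⟪xb - s yb, Xb - s' η⟫_ℝ ≤ δ ^ 4 * (κ ρ * ρ ^ 2) / 2 := by
    have h3 := neg_le_of_abs_le (abs_real_inner_le_norm (xb - s yb) (Xb - s' η))
    have h4 := h.g_le' hyb hη
    have h5 : t * ‖Xb - s' η‖ ≤ (δ ^ 4 * ρ) * (δ ^ 2 * κ ρ * ρ) :=
      mul_le_mul htu h4 (norm_nonneg _) (by positivity)
    have e : (δ ^ 4 * ρ) * (δ ^ 2 * κ ρ * ρ) = δ ^ 2 * (δ ^ 4 * (κ ρ * ρ ^ 2)) := by ring
    have h6 : 0 ≤ δ ^ 4 * (κ ρ * ρ ^ 2) := by positivity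
    have h7 := mul_le_mul_of_nonneg_right p6 h6
    rw [← ht] at h3
    linarith
  have h3 : (1 + 4 * δ) * FF κ t ≤ (1 + 4 * δ) * (δ ^ 4 * (κ ρ * ρ ^ 2)) :=
    mul_le_mul_of_nonneg_left h1 (by linarith)
  have h4 : δ * (δ ^ 4 * (κ ρ * ρ ^ 2)) ≤ 1 / 100 * (δ ^ 4 * (κ ρ * ρ ^ 2)) :=
    mul_le_mul_of_nonneg_right hδ1 (by positivity)
  have h5 : 0 ≤ δ ^ 4 * (κ ρ * ρ ^ 2) := by positivity
  unfold WW lin
  rw [hTT]
  simp only [sub_self, inner_zero_left, norm_zero, map_zero, sub_zero]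
  nlinarith

/-- The distance of the parameter from the foot point of the maximum. -/
lemma dist_le {p y η η₂ : E} {x : G} (hp : ‖p - yb‖ ≤ ρ / 2) (hy : ‖y - yb‖ ≤ ρ / 2)
    (hη : IsEta κ δ ρ s' Ds yb ηb Xb p η) (hη₂ : IsEta κ δ ρ s' Ds yb ηb Xb y η₂)
    (hT : TT s p y x ≤ ρ)
    (hle : WW κ δ ρ s s' Ds yb ηb xb Xb η p y x ≤ WW κ δ ρ s s' Ds yb ηb xb Xb η₂ y y x) :
    ‖y - p‖ ≤ 3 * δ * ‖x - s y‖ := by
  have hK := h.K0
  have hρ := h.ρ0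
  have hδ := h.δ0
  have hδ1 := h.δ1
  have hσ0 := h.σ0
  have hσδ := h.σδ
  obtain ⟨p2, p3, p4, p6, p1⟩ := num_pow hδ hδ1
  have hp' : ‖p - yb‖ ≤ ρ := by linarith
  have hy' : ‖y - yb‖ ≤ ρ := by linarith
  set D := ‖y - p‖ with hD
  set r := ‖x - s y‖ with hr
  have hD0 : 0 ≤ D := norm_nonneg _
  have hr0 : 0 ≤ r := norm_nonneg _
  rcases hD0.eq_or_lt with hDz | hDp
  · rw [← hDz]; positivity
  -- the distance
  have hTTy : TT s y y x = r := by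
    unfold TT
    rw [sub_self, norm_zero]
    simp [hr]
  have hT2 : D ^ 2 - 2 * σ * D * r ≤ TT s p y x ^ 2 - r ^ 2 := by
    rw [TT_sq]
    have e : x - s p = (x - s y) + (s y - s p) := by abel
    rw [e, norm_add_sq_real]
    have h1 := neg_le_of_abs_le (abs_real_inner_le_norm (x - s y) (s y - s p))
    have h2 := h.lip y p hy' hp'
    have h3 : r * ‖s y - s p‖ ≤ r * (σ * D) := mul_le_mul_of_nonneg_left h2 hr0
    nlinarith [sq_nonneg ‖s y - s p‖]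
  by_contra hcon
  push Not at hcon
  have hσr : σ * r ≤ δ / 3 * D := by
    have h1 : σ * r ≤ δ ^ 2 * r := mul_le_mul_of_nonneg_right hσδ hr0
    nlinarith
  have hpos : 0 ≤ D ^ 2 - 2 * σ * D * r := by
    have : 2 * σ * D * r = 2 * D * (σ * r) := by ring
    rw [this]
    have h2 : 2 * D * (σ * r) ≤ 2 * D * (δ / 3 * D) := mul_le_mul_of_nonneg_left hσr (by positivity)
    nlinarith [sq_nonneg D]
  have hTT0 : 0 ≤ TT s p y x := TT_nonneg
  have hF : κ ρ / 2 * (D ^ 2 - 2 * σ * D * r) ≤ FF κ (TT s p y x) - FF κ r := by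
    have h1 := FF_le h.prof (R := TT s p y x) (T := r) hTT0 hr0
    have h2 := h.prof.anti _ _ hTT0 hT
    have h3 : κ ρ * (TT s p y x ^ 2 - r ^ 2) ≤ κ (TT s p y x) * (TT s p y x ^ 2 - r ^ 2) :=
      mul_le_mul_of_nonneg_right h2 (by linarith)
    have h4 := mul_le_mul_of_nonneg_left hT2 hK.le
    linarith
  -- the linear term
  have hg := h.g_le' hp hη
  have hlip := h.eta_lip hp hη hy hη₂
  have hs' := h.sl η₂ η hη₂.1 hη.1
  rw [norm_sub_rev η₂ η] at hs'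
  have hpD : ‖p - y‖ = D := by rw [hD, norm_sub_rev]
  rw [hpD] at hlip
  have hrem : ⟪x - s p - Ds p (y - p), Xb - s' η⟫_ℝ - ⟪x - s y, Xb - s' η₂⟫_ℝ
      ≤ r * (σ * (105 / 100 * κ ρ * D)) + σ * D ^ 2 * (δ ^ 2 * κ ρ) := by
    have e : ⟪x - s p - Ds p (y - p), Xb - s' η⟫_ℝ - ⟪x - s y, Xb - s' η₂⟫_ℝ
        = ⟪x - s y, s' η₂ - s' η⟫_ℝ + ⟪s y - s p - Ds p (y - p), Xb - s' η⟫_ℝ := by
      have e1 : x - s p - Ds p (y - p) = (x - s y) + (s y - s p - Ds p (y - p)) := by abel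
      have e2 : s' η₂ - s' η = (Xb - s' η) - (Xb - s' η₂) := by abel
      rw [e1, inner_add_left, e2, inner_sub_right (x - s y) (Xb - s' η) (Xb - s' η₂)]
      ring
    rw [e]
    have h1 := real_inner_le_norm (x - s y) (s' η₂ - s' η)
    have h2 := real_inner_le_norm (s y - s p - Ds p (y - p)) (Xb - s' η)
    have h3 := h.tay y p hy' hp'
    have h4 : r * ‖s' η₂ - s' η‖ ≤ r * (σ * (105 / 100 * κ ρ * D)) :=
      mul_le_mul_of_nonneg_left (hs'.trans (mul_le_mul_of_nonneg_left hlip hσ0)) hr0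
    have h5 : ‖s y - s p - Ds p (y - p)‖ * ‖Xb - s' η‖ ≤ (σ / ρ * D ^ 2) * (δ ^ 2 * κ ρ * ρ) :=
      mul_le_mul h3 hg (norm_nonneg _) (by positivity)
    have e3 : (σ / ρ * D ^ 2) * (δ ^ 2 * κ ρ * ρ) = σ * D ^ 2 * (δ ^ 2 * κ ρ) := by field_simp
    linarith
  have hle2 : (1 + 4 * δ) * (FF κ (TT s p y x) - FF κ r)
      ≤ (1 + 2 * δ) * κ ρ / 2 * D ^ 2 + (⟪x - s p - Ds p (y - p), Xb - s' η⟫_ℝ
        - ⟪x - s y, Xb - s' η₂⟫_ℝ) := by
    unfold WW at hle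
    rw [hTTy] at hle
    simp only [sub_self, norm_zero, map_zero, sub_zero] at hle
    rw [← hD] at hle
    nlinarith
  have hF2 := mul_le_mul_of_nonneg_left hF (show 0 ≤ 1 + 4 * δ by linarith)
  -- everything over `κ ρ`
  have hfin : κ ρ * (δ * D ^ 2) ≤ κ ρ * (209 / 100 * (D * (σ * r)) + σ * δ ^ 2 * D ^ 2) := by
    have hx : 0 ≤ κ ρ * (D * (σ * r)) := by positivity
    have hx2 : δ * (κ ρ * (D * (σ * r))) ≤ 1 / 100 * (κ ρ * (D * (σ * r))) :=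
      mul_le_mul_of_nonneg_right hδ1 hx
    nlinarith
  have hfin2 := le_of_mul_le_mul_left hfin hK
  have h1 : D * (σ * r) ≤ D * (δ / 3 * D) := mul_le_mul_of_nonneg_left hσr hD0
  have h2 : σ * δ ^ 2 * D ^ 2 ≤ δ / 100 * D ^ 2 := by
    apply mul_le_mul_of_nonneg_right _ (sq_nonneg D)
    have h3 : σ * δ ^ 2 ≤ δ ^ 2 * 1 := mul_le_mul hσδ (by linarith) (by positivity) (by positivity)
    linarith
  have h3 : 0 < δ * D ^ 2 := by positivity
  nlinarith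

end AData

end Pool.Agent.H60.FT
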