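import Mathlib

/-!
Profiles for the A-step of MP_6e521b_an (project FT).
-/

open Set MeasureTheory intervalIntegral

namespace Pool.Agent.H60.FT

/-- A profile: `κ` is positive and nonincreasing, `r κ(r)` is nondecreasing. -/
structure Prof (κ : ℝ → ℝ) : Prop where
  pos : ∀ r, 0 ≤ r → 0 < κ r
  anti : ∀ r t, 0 ≤ r → r ≤ t → κ t ≤ κ r
  mono : ∀ r t, 0 ≤ r → r ≤ t → r * κ r ≤ t * κ t

/-- The primitive of `r κ(r)`. -/
noncomputable def FF (κ : ℝ → ℝ) (R : ℝ) : ℝ := ∫ r in (0 : ℝ)..R, r * κ r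

variable {κ : ℝ → ℝ}

lemma Prof.ii (h : Prof κ) {a b : ℝ} (ha : 0 ≤ a) (hb : 0 ≤ b) :
    IntervalIntegrable (fun r => r * κ r) volume a b := by
  apply MonotoneOn.intervalIntegrable
  intro r hr t ht hrt
  have h0 : 0 ≤ r := le_trans (le_min ha hb) hr.1
  exact h.mono r t h0 hrt

lemma FF_zero : FF κ 0 = 0 := by simp [FF]

lemma FF_sub (h : Prof κ) {R T : ℝ} (hR : 0 ≤ R) (hT : 0 ≤ T) :
    FF κ T - FF κ R = ∫ r in R..T, r * κ r := by
  unfold FF
  exact integral_interval_sub_left (h.ii le_rfl hT) (h.ii le_rfl hR)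

/-- The upper parabola. -/
lemma FF_le (h : Prof κ) {R T : ℝ} (hR : 0 ≤ R) (hT : 0 ≤ T) :
    FF κ T ≤ FF κ R + κ R * (T ^ 2 - R ^ 2) / 2 := by
  have hint : ∀ a b : ℝ, ∫ r in a..b, r * κ R = κ R * (b ^ 2 - a ^ 2) / 2 := by
    intro a b
    rw [intervalIntegral.integral_mul_const, integral_id]
    ring
  rcases le_total R T with hRT | hRT
  · have h1 : ∫ r in R..T, r * κ r ≤ ∫ r in R..T, r * κ R := by
      apply integral_mono_on hRT (h.ii hR hT)
      · exact (continuous_id.mul continuous_const).intervalIntegrable _ _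
      · intro r hr
        have hr0 : 0 ≤ r := hR.trans hr.1
        exact mul_le_mul_of_nonneg_left (h.anti R r hR hr.1) hr0
    rw [hint] at h1
    linarith [FF_sub h hR hT]
  · have h1 : ∫ r in T..R, r * κ R ≤ ∫ r in T..R, r * κ r := by
      apply integral_mono_on hRT
      · exact (continuous_id.mul continuous_const).intervalIntegrable _ _
      · exact h.ii hT hR
      · intro r hr
        have hr0 : 0 ≤ r := hT.trans hr.1
        exact mul_le_mul_of_nonneg_left (h.anti r R hr0 hr.2) hr0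
    rw [hint] at h1
    linarith [FF_sub h hT hR]

lemma FF_nonneg (h : Prof κ) {R : ℝ} (hR : 0 ≤ R) : 0 ≤ FF κ R := by
  have h1 := FF_le h hR le_rfl
  rw [FF_zero] at h1
  have h2 := (h.pos R hR).le
  nlinarith [mul_nonneg h2 (sq_nonneg R)]

/-- The lower parabola. -/
lemma FF_ge (h : Prof κ) {T ρ : ℝ} (hT : 0 ≤ T) (hTρ : T ≤ ρ) : κ ρ * T ^ 2 / 2 ≤ FF κ T := by
  have h1 := FF_le h hT le_rfl
  rw [FF_zero] at h1
  have h2 := h.anti T ρ hT hTρ
  nlinarith [mul_le_mul_of_nonneg_right h2 (sq_nonneg T)]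

lemma FF_le' (h : Prof κ) {R : ℝ} (hR : 0 ≤ R) : FF κ R ≤ R * (R * κ R) := by
  have h1 : ∫ r in (0 : ℝ)..R, r * κ r ≤ ∫ _r in (0 : ℝ)..R, R * κ R := by
    apply integral_mono_on hR (h.ii le_rfl hR)
    · exact continuous_const.intervalIntegrable _ _
    · intro r hr
      exact h.mono r R hr.1 hr.2
  rw [intervalIntegral.integral_const] at h1
  simpa [FF] using h1

lemma FF_cont (h : Prof κ) : ContinuousOn (FF κ) (Ici 0) := by
  intro R hR
  have h1 : ContinuousOn (FF κ) (Icc 0 (R + 1)) := by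
    have h2 := intervalIntegral.continuousOn_primitive_interval (μ := volume) (a := 0) (b := R + 1)
      (f := fun r => r * κ r) (by
        have h3 := (h.ii (le_refl (0:ℝ)) (show (0:ℝ) ≤ R + 1 by have := mem_Ici.1 hR; linarith))
        rw [uIcc_of_le (by have := mem_Ici.1 hR; linarith)]
        rw [intervalIntegrable_iff_integrableOn_Icc_of_le (by have := mem_Ici.1 hR; linarith)] at h3
        exact h3)
    rw [uIcc_of_le (by have := mem_Ici.1 hR; linarith)] at h2
    exact h2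
  have h2 := h1 R ⟨hR, by linarith⟩
  apply h2.mono_of_mem_nhdsWithin
  rw [mem_nhdsWithin]
  refine ⟨Iio (R + 1), isOpen_Iio, by simp, ?_⟩
  rintro x ⟨hx1, hx2⟩
  exact ⟨hx2, le_of_lt hx1⟩

end Pool.Agent.H60.FT
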